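import Mathlib

open MeasureTheory ProbabilityTheory Filter

namespace Pool.Agent.Lib.MP_81a99a_pr

/-- the nearest neighbour graph on `ℤ^d` -/
def lattice (d : ℕ) : SimpleGraph (Fin d → ℤ) :=
  SimpleGraph.fromRel fun x y => ∃ i, y = x + Pi.single i 1

/-- the nearest neighbour torus `(ℤ/nℤ)^d` -/
def torus (d n : ℕ) : SimpleGraph (Fin d → ZMod n) :=
  SimpleGraph.fromRel fun x y => ∃ i, y = x + Pi.single i 1

/-- the open cluster of `x` when `ω` is the set of open edges -/
def cluster {V : Type} (ω : Set (Sym2 V)) (x : V) : Set V :=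
  {y | (SimpleGraph.fromEdgeSet ω).Reachable x y}

/-- the size of the `m`-th largest cluster (`0` if there are fewer than `m` clusters) -/
noncomputable def kthLargest {V : Type} (m : ℕ) (ω : Set (Sym2 V)) : ℕ :=
  sSup {j | ∃ S : Finset V, S.card = m ∧ (∀ x ∈ S, ∀ y ∈ S, x ≠ y → y ∉ cluster ω x) ∧
    ∀ x ∈ S, j ≤ (cluster ω x).ncard}

/-- the critical value of bond percolation on `ℤ^d` -/
noncomputable def pc (d : ℕ) : unitInterval :=
  sInf {p | 0 < setBernoulli (lattice d).edgeSet p {ω | (cluster ω 0).Infinite}}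

/-- mean-field critical behaviour in dimension `d`: the critical cluster tail on `ℤ^d` is
`O(k^(-1/2))`, and at `p_c` the largest cluster of the torus has order at least `V^(2/3)` with
probability bounded away from zero -/
def MeanField (d : ℕ) : Prop :=
  (∃ C : ℝ, ∀ k : ℕ, 1 ≤ k →
    (setBernoulli (lattice d).edgeSet (pc d)).real {ω | (k : ℕ∞) ≤ (cluster ω 0).encard} ≤
      C / √(k : ℝ)) ∧
  ∃ a : ℝ, 0 < a ∧ ∀ᶠ n : ℕ in atTop,
    a ≤ (setBernoulli (torus d n).edgeSet (pc d)).real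
      {ω | a * ((n : ℝ) ^ d) ^ (2 / 3 : ℝ) ≤ kthLargest 1 ω}

end Pool.Agent.Lib.MP_81a99a_pr
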