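import Mathlib

/-! Finite Bernoulli product model: weights, expectation, independence, FKG, stopping sets. -/

open Finset Classical

set_option linter.unusedSectionVars false

namespace Pool.Agent.Lib.MP_81a99a_pr

variable {ι : Type} [Fintype ι]

noncomputable def wt (p : ℝ) (ω : Set ι) : ℝ := ∏ e, if e ∈ ω then p else 1 - p

noncomputable def Ex (p : ℝ) (f : Set ι → ℝ) : ℝ := ∑ ω, wt p ω * f ω

noncomputable def ind (P : Prop) : ℝ := if P then 1 else 0

lemma ind_nonneg (P : Prop) : 0 ≤ ind P := by unfold ind; split_ifs <;> norm_num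
lemma ind_le_one (P : Prop) : ind P ≤ 1 := by unfold ind; split_ifs <;> norm_num
lemma ind_pos {P : Prop} (h : P) : ind P = 1 := by simp [ind, h]
lemma ind_neg {P : Prop} (h : ¬ P) : ind P = 0 := by simp [ind, h]
lemma ind_mono {P Q : Prop} (h : P → Q) : ind P ≤ ind Q := by
  by_cases hp : P
  · rw [ind_pos hp, ind_pos (h hp)]
  · rw [ind_neg hp]; exact ind_nonneg _
lemma ind_congr {P Q : Prop} (h : P ↔ Q) : ind P = ind Q := by rw [propext h]
lemma ind_not (P : Prop) : ind (¬ P) = 1 - ind P := by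
  by_cases hp : P <;> simp [ind, hp]

lemma sum_prod_set (F : ι → Prop → ℝ) :
    ∑ ω : Set ι, ∏ e, F e (e ∈ ω) = ∏ e, (F e True + F e False) := by
  have h := Finset.prod_univ_sum (fun _ : ι => (Finset.univ : Finset Prop)) F
  simp only [Fintype.piFinset_univ] at h
  have h2 : ∀ e, ∑ j : Prop, F e j = F e True + F e False := by
    intro e
    rw [Fintype.univ_Prop]
    simp
  simp only [h2] at h
  rw [h]
  exact Fintype.sum_equiv ⟨fun ω e => e ∈ ω, fun f => {e | f e}, fun _ => rfl, fun _ => rfl⟩ _ _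
    (fun _ => rfl)

lemma Ex_prod (p : ℝ) (F : ι → Prop → ℝ) :
    Ex p (fun ω => ∏ e, F e (e ∈ ω)) = ∏ e, (p * F e True + (1 - p) * F e False) := by
  have := sum_prod_set (fun e (P : Prop) => (if P then p else 1 - p) * F e P)
  simp only [if_true, if_false] at this
  rw [← this]
  unfold Ex wt
  refine Finset.sum_congr rfl fun ω _ => ?_
  rw [← Finset.prod_mul_distrib]

lemma wt_nonneg {p : ℝ} (h0 : 0 ≤ p) (h1 : p ≤ 1) (ω : Set ι) : 0 ≤ wt p ω :=
  Finset.prod_nonneg fun e _ => by split_ifs <;> linarith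

lemma Ex_const (p c : ℝ) : Ex p (fun _ : Set ι => c) = c := by
  have := Ex_prod (ι := ι) p (fun _ _ => 1)
  simp only [prod_const_one, mul_one, add_sub_cancel] at this
  unfold Ex at *
  simp only [mul_one] at this
  rw [← Finset.sum_mul, this, one_mul]

lemma Ex_add (p : ℝ) (f g : Set ι → ℝ) : Ex p (fun ω => f ω + g ω) = Ex p f + Ex p g := by
  simp only [Ex, mul_add, Finset.sum_add_distrib]

lemma Ex_sub (p : ℝ) (f g : Set ι → ℝ) : Ex p (fun ω => f ω - g ω) = Ex p f - Ex p g := by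
  simp only [Ex, mul_sub, Finset.sum_sub_distrib]

lemma Ex_mul_left (p c : ℝ) (f : Set ι → ℝ) : Ex p (fun ω => c * f ω) = c * Ex p f := by
  simp only [Ex, Finset.mul_sum]
  exact Finset.sum_congr rfl fun _ _ => by ring

lemma Ex_mul_right (p c : ℝ) (f : Set ι → ℝ) : Ex p (fun ω => f ω * c) = Ex p f * c := by
  simp only [Ex, Finset.sum_mul]
  exact Finset.sum_congr rfl fun _ _ => by ring

lemma Ex_sum {κ : Type} (p : ℝ) (s : Finset κ) (f : κ → Set ι → ℝ) :
    Ex p (fun ω => ∑ i ∈ s, f i ω) = ∑ i ∈ s, Ex p (f i) := by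
  simp only [Ex, Finset.mul_sum]
  exact Finset.sum_comm

lemma Ex_mono {p : ℝ} (h0 : 0 ≤ p) (h1 : p ≤ 1) {f g : Set ι → ℝ} (h : ∀ ω, f ω ≤ g ω) :
    Ex p f ≤ Ex p g :=
  Finset.sum_le_sum fun ω _ => mul_le_mul_of_nonneg_left (h ω) (wt_nonneg h0 h1 ω)

lemma Ex_nonneg {p : ℝ} (h0 : 0 ≤ p) (h1 : p ≤ 1) {f : Set ι → ℝ} (h : ∀ ω, 0 ≤ f ω) :
    0 ≤ Ex p f := by
  have := Ex_mono h0 h1 (f := fun _ => 0) h
  rwa [Ex_const] at this

lemma Ex_le_const {p c : ℝ} (h0 : 0 ≤ p) (h1 : p ≤ 1) {f : Set ι → ℝ} (h : ∀ ω, f ω ≤ c) :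
    Ex p f ≤ c := by
  have := Ex_mono h0 h1 (g := fun _ => c) h
  rwa [Ex_const] at this

lemma Ex_congr {p : ℝ} {f g : Set ι → ℝ} (h : ∀ ω, f ω = g ω) : Ex p f = Ex p g := by
  rw [funext h]

/-- `f` depends only on the coordinates in `U` -/
def DepOn (f : Set ι → ℝ) (U : Set ι) : Prop :=
  ∀ ω ω' : Set ι, (∀ e ∈ U, (e ∈ ω ↔ e ∈ ω')) → f ω = f ω'

lemma Ex_mul_of_dep (p : ℝ) {f g : Set ι → ℝ} {U : Set ι} (hf : DepOn f U) (hg : DepOn g Uᶜ) :
    Ex p (fun ω => f ω * g ω) = Ex p f * Ex p g := by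
  let mix : Set ι → Set ι → Set ι := fun a b => (a ∩ U) ∪ (b ∩ Uᶜ)
  have hmix : ∀ a b, mix (mix a b) (mix b a) = a := by
    intro a b; ext e; by_cases h : e ∈ U <;> simp [mix, h]
  let σ : Set ι × Set ι ≃ Set ι × Set ι :=
    ⟨fun x => (mix x.1 x.2, mix x.2 x.1), fun x => (mix x.1 x.2, mix x.2 x.1),
      fun x => by simp [hmix], fun x => by simp [hmix]⟩
  have hw : ∀ a b, wt p (mix a b) * wt p (mix b a) = wt p a * wt p b := by
    intro a b
    unfold wt
    rw [← Finset.prod_mul_distrib, ← Finset.prod_mul_distrib]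
    refine Finset.prod_congr rfl fun e _ => ?_
    by_cases h : e ∈ U
    · simp [mix, h]
    · simp [mix, h, mul_comm]
  have h1 : Ex p f * Ex p g = ∑ x : Set ι × Set ι, wt p x.1 * wt p x.2 * (f x.1 * g x.2) := by
    unfold Ex
    rw [Finset.sum_mul_sum, Fintype.sum_prod_type]
    exact Finset.sum_congr rfl fun _ _ => Finset.sum_congr rfl fun _ _ => by ring
  have h2 : Ex p (fun ω => f ω * g ω) =
      ∑ x : Set ι × Set ι, wt p x.1 * wt p x.2 * (f x.1 * g x.1) := by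
    have := Ex_const (ι := ι) p 1
    unfold Ex at *
    simp only [mul_one] at this
    rw [Fintype.sum_prod_type]
    refine Finset.sum_congr rfl fun a _ => ?_
    simp only
    rw [← Finset.sum_mul, ← Finset.mul_sum, this, mul_one]
  rw [h1, h2]
  symm
  refine Fintype.sum_equiv σ _ _ fun x => ?_
  simp only [σ, Equiv.coe_fn_mk]
  rw [hw, hf x.1 (mix x.1 x.2), hg x.2 (mix x.1 x.2)]
  · intro e he; simp [mix, show e ∉ U from he]
  · intro e he; simp [mix, he]

lemma Ex_coord (p a b : ℝ) (e : ι) :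
    Ex p (fun ω => if e ∈ ω then a else b) = p * a + (1 - p) * b := by
  have := Ex_prod p (fun e' (P : Prop) => if e' = e then (if P then a else b) else 1)
  simp only [Finset.prod_ite_eq', Finset.mem_univ, if_true, if_false] at this
  rw [this, Finset.prod_eq_single e]
  · simp
  · intro e' _ h; simp [h]
  · simp

/-- `f` does not depend on the coordinate `e` -/
lemma Ex_coord_mul (p a b : ℝ) (e : ι) {f : Set ι → ℝ} (hf : DepOn f {e}ᶜ) :
    Ex p (fun ω => (if e ∈ ω then a else b) * f ω) = (p * a + (1 - p) * b) * Ex p f := by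
  rw [Ex_mul_of_dep p (U := {e}) _ hf, Ex_coord]
  intro ω ω' h
  simp only [h e rfl]

lemma Ex_split (p : ℝ) (e : ι) {f f1 f0 : Set ι → ℝ} (h1 : DepOn f1 {e}ᶜ) (h0 : DepOn f0 {e}ᶜ)
    (hf1 : ∀ ω, e ∈ ω → f ω = f1 ω) (hf0 : ∀ ω, e ∉ ω → f ω = f0 ω) :
    Ex p f = p * Ex p f1 + (1 - p) * Ex p f0 := by
  have : ∀ ω, f ω = (if e ∈ ω then 1 else 0) * f1 ω + (if e ∈ ω then 0 else 1) * f0 ω := by
    intro ω; by_cases h : e ∈ ω
    · simp [h, hf1 ω h]
    · simp [h, hf0 ω h]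
  rw [Ex_congr this, Ex_add, Ex_coord_mul p _ _ e h1, Ex_coord_mul p _ _ e h0]
  ring

lemma Ex_fkg_anti {p : ℝ} (h0 : 0 ≤ p) (h1 : p ≤ 1) {f g : Set ι → ℝ} (hf : Antitone f)
    (hg : Antitone g) (hf1 : ∀ ω, f ω ≤ 1) (hg1 : ∀ ω, g ω ≤ 1) :
    Ex p f * Ex p g ≤ Ex p (fun ω => f ω * g ω) := by
  have key := fkg (μ := wt p) (f := fun ω : Set ι => 1 - f ω) (g := fun ω => 1 - g ω)
    (fun ω => wt_nonneg h0 h1 ω) (fun ω => sub_nonneg.2 (hf1 ω)) (fun ω => sub_nonneg.2 (hg1 ω))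
    (fun a b h => sub_le_sub_left (hf h) 1) (fun a b h => sub_le_sub_left (hg h) 1)
    (by
      intro a b
      unfold wt
      rw [← Finset.prod_mul_distrib, ← Finset.prod_mul_distrib]
      refine le_of_eq (Finset.prod_congr rfl fun e _ => ?_)
      by_cases ha : e ∈ a <;> by_cases hb : e ∈ b <;> simp [ha, hb, mul_comm])
  have c1 := Ex_const (ι := ι) p 1
  have e1 : ∑ a : Set ι, wt p a = 1 := by simpa [Ex] using c1
  have e2 : ∑ a : Set ι, wt p a * (1 - f a) = 1 - Ex p f := by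
    rw [← c1, ← Ex_sub]; simp only [c1]; rfl
  have e3 : ∑ a : Set ι, wt p a * (1 - g a) = 1 - Ex p g := by
    rw [← c1, ← Ex_sub]; simp only [c1]; rfl
  have e4 : ∑ a : Set ι, wt p a * ((1 - f a) * (1 - g a)) =
      1 - Ex p f - Ex p g + Ex p (fun ω => f ω * g ω) := by
    have : 1 - Ex p f - Ex p g + Ex p (fun ω => f ω * g ω) =
        Ex p (fun ω => 1 - f ω - g ω + f ω * g ω) := by
      rw [Ex_add, Ex_sub, Ex_sub, c1]
    rw [this]
    exact Finset.sum_congr rfl fun _ _ => by ring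
  rw [e1, e2, e3, e4] at key
  nlinarith

/-- conditioning on a random variable `T` whose value `A` is decided on `U A` -/
lemma Ex_cond {κ : Type} [Fintype κ] (p : ℝ) (T : Set ι → κ) (U : κ → Set ι)
    (hT : ∀ A, DepOn (fun ω => ind (T ω = A)) (U A)) (F : κ → Set ι → ℝ)
    (hF : ∀ A, DepOn (F A) (U A)ᶜ) :
    Ex p (fun ω => F (T ω) ω) = Ex p (fun ω => Ex p (F (T ω))) := by
  have a1 : ∀ G : κ → Set ι → ℝ, Ex p (fun ω => G (T ω) ω) =
      ∑ A, Ex p (fun ω => ind (T ω = A) * G A ω) := by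
    intro G
    rw [← Ex_sum]
    refine Ex_congr fun ω => ?_
    rw [Finset.sum_eq_single (T ω)]
    · rw [ind_pos rfl, one_mul]
    · intro A _ h; rw [ind_neg (Ne.symm h), zero_mul]
    · simp
  rw [a1, a1 (fun A _ => Ex p (F A))]
  refine Finset.sum_congr rfl fun A _ => ?_
  rw [Ex_mul_of_dep p (hT A) (hF A), Ex_mul_right]

lemma markov {p : ℝ} (h0 : 0 ≤ p) (h1 : p ≤ 1) {f : Set ι → ℝ} {t : ℝ} (ht : 0 < t) :
    Ex p (fun ω => ind (t ≤ |f ω|)) ≤ Ex p (fun ω => f ω ^ 2) / t ^ 2 := by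
  rw [div_eq_mul_inv, ← Ex_mul_right]
  refine Ex_mono h0 h1 fun ω => ?_
  by_cases h : t ≤ |f ω|
  · rw [ind_pos h, ← div_eq_mul_inv, le_div_iff₀ (by positivity), one_mul, ← sq_abs (f ω)]
    exact pow_le_pow_left₀ ht.le h 2
  · rw [ind_neg h]; positivity

/-! ### stopping sets -/

def IsStop (R : Set ι → Finset ι) : Prop :=
  ∀ ω ω' : Set ι, (∀ e ∈ R ω, (e ∈ ω ↔ e ∈ ω')) → R ω' = R ω

def Det (R : Set ι → Finset ι) (Y : Set ι → ℝ) : Prop :=
  ∀ ω ω' : Set ι, (∀ e ∈ R ω, (e ∈ ω ↔ e ∈ ω')) → Y ω' = Y ω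

lemma IsStop.eq_of_notMem {R : Set ι → Finset ι} (hR : IsStop R) {e : ι} {ω ω' : Set ι}
    (h : ∀ e' ∈ ({e}ᶜ : Set ι), (e' ∈ ω ↔ e' ∈ ω')) (he : e ∉ R ω) : R ω' = R ω :=
  hR ω ω' fun e' he' => h e' (by rintro rfl; exact he he')

lemma IsStop.mem_iff {R : Set ι → Finset ι} (hR : IsStop R) {e : ι} {ω ω' : Set ι}
    (h : ∀ e' ∈ ({e}ᶜ : Set ι), (e' ∈ ω ↔ e' ∈ ω')) : e ∈ R ω ↔ e ∈ R ω' := by
  constructor
  · intro h1; by_contra h2
    rw [← hR.eq_of_notMem (fun e' he' => (h e' he').symm) h2] at h2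
    exact h2 h1
  · intro h1; by_contra h2
    rw [← hR.eq_of_notMem h h2] at h2
    exact h2 h1

noncomputable def xi (p : ℝ) (e : ι) (ω : Set ι) : ℝ := if e ∈ ω then 1 - p else -p

noncomputable def XX (p : ℝ) (R : Set ι → Finset ι) (ω : Set ι) : ℝ := ∑ e ∈ R ω, xi p e ω

lemma stop_var (p : ℝ) {R : Set ι → Finset ι} (hR : IsStop R) :
    Ex p (fun ω => XX p R ω ^ 2) = p * (1 - p) * Ex p (fun ω => ((R ω).card : ℝ)) := by
  have hX : ∀ ω, XX p R ω = ∑ e, xi p e ω * ind (e ∈ R ω) := by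
    intro ω
    unfold XX
    rw [← Finset.sum_subset (Finset.subset_univ (R ω))]
    · exact Finset.sum_congr rfl fun e he => by rw [ind_pos he, mul_one]
    · intro e _ he; rw [ind_neg he, mul_zero]
  have hc : ∀ ω, ((R ω).card : ℝ) = ∑ e, ind (e ∈ R ω) := by
    intro ω
    rw [← Finset.sum_subset (Finset.subset_univ (R ω))]
    · rw [Finset.sum_congr rfl fun e he => ind_pos he]; simp
    · intro e _ he; rw [ind_neg he]
  have z : ∀ (e : ι) (f : Set ι → ℝ), DepOn f {e}ᶜ → Ex p (fun ω => xi p e ω * f ω) = 0 := by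
    intro e f hf
    unfold xi
    rw [Ex_coord_mul p _ _ e hf]; ring
  have dx : ∀ e e' : ι, e' ≠ e → ∀ ω ω' : Set ι, (∀ x ∈ ({e}ᶜ : Set ι), (x ∈ ω ↔ x ∈ ω')) →
      xi p e' ω = xi p e' ω' := by
    intro e e' h ω ω' hh
    unfold xi
    simp only [hh e' h]
  simp only [hX, hc, sq, Finset.sum_mul_sum]
  rw [Ex_sum, Ex_sum, Finset.mul_sum]
  refine Finset.sum_congr rfl fun e _ => ?_
  rw [Ex_sum, Finset.sum_eq_single e]
  · have : ∀ ω, xi p e ω * ind (e ∈ R ω) * (xi p e ω * ind (e ∈ R ω)) =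
        (if e ∈ ω then (1 - p) ^ 2 else p ^ 2) * ind (e ∈ R ω) := by
      intro ω; unfold xi ind; split_ifs <;> ring
    rw [Ex_congr this, Ex_coord_mul]
    · ring
    · intro ω ω' h; exact ind_congr (hR.mem_iff h)
  · intro f _ hfe
    have : ∀ ω, xi p e ω * ind (e ∈ R ω) * (xi p f ω * ind (f ∈ R ω)) =
        xi p e ω * (xi p f ω * ind (e ∈ R ω)) - xi p f ω * (xi p e ω * ind (f ∉ R ω)) +
          xi p e ω * (xi p f ω * ind (e ∉ R ω ∧ f ∉ R ω)) := by
      intro ω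
      by_cases h1 : e ∈ R ω <;> by_cases h2 : f ∈ R ω <;> simp [ind, h1, h2] <;> ring
    rw [Ex_congr this, Ex_add, Ex_sub, z, z, z]
    · ring
    · intro ω ω' h
      beta_reduce
      rw [dx e f hfe ω ω' h]
      congr 1
      refine ind_congr ⟨fun ⟨h1, h2⟩ => ?_, fun ⟨h1, h2⟩ => ?_⟩
      · rw [hR.eq_of_notMem h h1]; exact ⟨h1, h2⟩
      · rw [hR.eq_of_notMem (fun e' he' => (h e' he').symm) h1]; exact ⟨h1, h2⟩
    · intro ω ω' h
      beta_reduce
      rw [dx f e hfe.symm ω ω' h, ind_congr (not_congr (hR.mem_iff h))]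
    · intro ω ω' h
      beta_reduce
      rw [dx e f hfe ω ω' h, ind_congr (hR.mem_iff h)]
  · simp

noncomputable def lr (p q : ℝ) (e : ι) (ω : Set ι) : ℝ :=
  if e ∈ ω then q / p else (1 - q) / (1 - p)

lemma stop_change {p q : ℝ} (h0 : 0 < p) (h1 : p < 1) {R : Set ι → Finset ι} (hR : IsStop R)
    {Y : Set ι → ℝ} (hY : Det R Y) :
    Ex q Y = Ex p (fun ω => Y ω * ∏ e ∈ R ω, lr p q e ω) := by
  have key : ∀ U : Finset ι, Ex p (fun ω => Y ω * ∏ e ∈ R ω ∪ U, lr p q e ω) =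
      Ex p (fun ω => Y ω * ∏ e ∈ R ω, lr p q e ω) := by
    intro U
    induction U using Finset.induction_on with
    | empty => simp
    | insert f U hf ih =>
      rw [← ih]
      have : ∀ ω, Y ω * ∏ e ∈ R ω ∪ insert f U, lr p q e ω =
          Y ω * ∏ e ∈ R ω ∪ U, lr p q e ω +
            (if f ∈ ω then q / p - 1 else (1 - q) / (1 - p) - 1) *
              (ind (f ∉ R ω) * (Y ω * ∏ e ∈ R ω ∪ U, lr p q e ω)) := by
        intro ω
        by_cases h : f ∈ R ω
        · rw [ind_neg (not_not.2 h), Finset.union_insert,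
            Finset.insert_eq_of_mem (Finset.mem_union_left _ h)]
          ring
        · rw [ind_pos h, Finset.union_insert, Finset.prod_insert (by simp [h, hf])]
          unfold lr
          split_ifs <;> ring
      rw [Ex_congr this, Ex_add, Ex_coord_mul]
      · have : p * (q / p - 1) + (1 - p) * ((1 - q) / (1 - p) - 1) = 0 := by
          have : 1 - p ≠ 0 := by linarith
          field_simp
          ring
        rw [this]; ring
      · intro ω ω' h
        beta_reduce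
        by_cases h2 : f ∈ R ω
        · rw [ind_neg (not_not.2 h2), ind_neg (not_not.2 ((hR.mem_iff h).1 h2))]; ring
        · have h3 := hR.eq_of_notMem h h2
          rw [h3, hY ω ω' fun e' he' => h e' (by rintro rfl; exact h2 he')]
          congr 2
          refine Finset.prod_congr rfl fun e he => ?_
          have : e ≠ f := by
            rintro rfl
            rcases Finset.mem_union.1 he with h4 | h4
            · exact h2 h4
            · exact hf h4
          unfold lr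
          simp only [h e this]
  rw [← key Finset.univ]
  unfold Ex
  refine Finset.sum_congr rfl fun ω _ => ?_
  have : wt q ω = wt p ω * ∏ e, lr p q e ω := by
    unfold wt lr
    rw [← Finset.prod_mul_distrib]
    refine Finset.prod_congr rfl fun e _ => ?_
    have : 1 - p ≠ 0 := by linarith
    split_ifs <;> field_simp
  beta_reduce
  rw [this, Finset.union_eq_right.2 (Finset.subset_univ _)]
  ring

lemma exp_le_one_add {x : ℝ} (hx : -(1 / 2) ≤ x) : Real.exp (x - 2 * x ^ 2) ≤ 1 + x := by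
  have h1 : 0 < 1 + x := by linarith
  rw [← Real.le_log_iff_exp_le h1]
  have := Real.one_sub_inv_le_log_of_pos h1
  have h2 : x - 2 * x ^ 2 ≤ 1 - (1 + x)⁻¹ := by
    rw [show 1 - (1 + x)⁻¹ = x / (1 + x) by field_simp; ring, le_div_iff₀ h1]
    nlinarith [mul_nonneg (sq_nonneg x) (show 0 ≤ 1 + 2 * x by linarith)]
  linarith

lemma lr_lower {p q α : ℝ} (hα : 0 < α) (h0 : α ≤ p) (h1 : α ≤ 1 - p) (hq : |q - p| ≤ α / 2)
    (e : ι) (ω : Set ι) :
    Real.exp ((q - p) / (p * (1 - p)) * xi p e ω - 2 * ((q - p) ^ 2 / α ^ 2)) ≤ lr p q e ω := by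
  have hp0 : 0 < p := by linarith
  have hp1 : 0 < 1 - p := by linarith
  have hq' := abs_le.1 hq
  unfold lr xi
  split_ifs with h
  · have := exp_le_one_add (x := (q - p) / p) (by rw [le_div_iff₀ hp0]; linarith)
    rw [show 1 + (q - p) / p = q / p by field_simp; ring] at this
    refine le_trans (Real.exp_le_exp.2 ?_) this
    have e1 : (q - p) / (p * (1 - p)) * (1 - p) = (q - p) / p := by field_simp
    have e2 : ((q - p) / p) ^ 2 ≤ (q - p) ^ 2 / α ^ 2 := by
      rw [div_pow]; gcongr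
    linarith
  · have := exp_le_one_add (x := -(q - p) / (1 - p)) (by rw [le_div_iff₀ hp1]; linarith)
    rw [show 1 + -(q - p) / (1 - p) = (1 - q) / (1 - p) by field_simp; ring] at this
    refine le_trans (Real.exp_le_exp.2 ?_) this
    have e1 : (q - p) / (p * (1 - p)) * (-p) = -(q - p) / (1 - p) := by field_simp
    have e2 : (-(q - p) / (1 - p)) ^ 2 ≤ (q - p) ^ 2 / α ^ 2 := by
      rw [div_pow, neg_sq]; gcongr
    linarith

/-- transfer of expectations between nearby parameters along a stopping set -/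
lemma transfer {p q α γ t r B : ℝ} (hα : 0 < α) (h0 : α ≤ p) (h1 : α ≤ 1 - p) (hq : |q - p| ≤ γ)
    (hγ : γ ≤ α / 2) {R : Set ι → Finset ι} (hR : IsStop R) {Y : Set ι → ℝ} (hY : Det R Y)
    (hY0 : ∀ ω, 0 ≤ Y ω) (hYB : ∀ ω, Y ω ≤ B) (hr : ∀ ω, ((R ω).card : ℝ) ≤ r) (ht : 0 < t) :
    Real.exp (-(2 * γ * t / α + 2 * r * γ ^ 2 / α ^ 2)) *
      (Ex p Y - B * (Ex p (fun ω => ((R ω).card : ℝ)) / t ^ 2)) ≤ Ex q Y := by
  have hp0 : 0 < p := by linarith
  have hp1 : p < 1 := by linarith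
  have hγ0 : 0 ≤ γ := le_trans (abs_nonneg _) hq
  have hB : 0 ≤ B := le_trans (hY0 ∅) (hYB ∅)
  rw [stop_change (q := q) hp0 hp1 hR hY]
  have m := markov hp0.le hp1.le (f := XX p R) ht
  rw [stop_var p hR] at m
  have hc : 0 ≤ Ex p (fun ω => ((R ω).card : ℝ)) := Ex_nonneg hp0.le hp1.le fun _ => by positivity
  have m2 : Ex p (fun ω => ind (t ≤ |XX p R ω|)) ≤ Ex p (fun ω => ((R ω).card : ℝ)) / t ^ 2 := by
    refine m.trans ?_
    gcongr
    nlinarith [mul_le_mul_of_nonneg_right (show p * (1 - p) ≤ 1 by nlinarith) hc]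
  set c := Real.exp (-(2 * γ * t / α + 2 * r * γ ^ 2 / α ^ 2)) with hcdef
  have hcpos : 0 < c := Real.exp_pos _
  calc c * (Ex p Y - B * (Ex p (fun ω => ((R ω).card : ℝ)) / t ^ 2))
      ≤ c * (Ex p Y - B * Ex p (fun ω => ind (t ≤ |XX p R ω|))) := by gcongr
    _ = Ex p (fun ω => c * (Y ω - B * ind (t ≤ |XX p R ω|))) := by
        rw [Ex_mul_left, Ex_sub, Ex_mul_left]
    _ ≤ _ := by
        refine Ex_mono hp0.le hp1.le fun ω => ?_
        have hL : 0 ≤ ∏ e ∈ R ω, lr p q e ω := Finset.prod_nonneg fun e _ =>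
          le_trans (Real.exp_pos _).le (lr_lower hα h0 h1 (hq.trans hγ) e ω)
        by_cases h : t ≤ |XX p R ω|
        · rw [ind_pos h]
          have := hYB ω
          have := mul_nonneg (hY0 ω) hL
          nlinarith
        · rw [ind_neg h, mul_zero, sub_zero, mul_comm]
          refine mul_le_mul_of_nonneg_left ?_ (hY0 ω)
          refine le_trans ?_ (Finset.prod_le_prod (fun e _ => (Real.exp_pos _).le)
            fun e _ => lr_lower hα h0 h1 (hq.trans hγ) e ω)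
          rw [← Real.exp_sum, hcdef, Real.exp_le_exp, Finset.sum_sub_distrib, ← Finset.mul_sum,
            Finset.sum_const, nsmul_eq_mul]
          have a1 : |(q - p) / (p * (1 - p)) * ∑ e ∈ R ω, xi p e ω| ≤ 2 * γ * t / α := by
            rw [abs_mul, abs_div, abs_of_pos (by nlinarith : 0 < p * (1 - p))]
            have b1 : α / 2 ≤ p * (1 - p) := by
              by_cases hh : p ≤ 1 / 2 <;> nlinarith
            have b2 : |∑ e ∈ R ω, xi p e ω| ≤ t := (not_le.1 h).le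
            calc |q - p| / (p * (1 - p)) * |∑ e ∈ R ω, xi p e ω| ≤ γ / (α / 2) * t := by gcongr
              _ = 2 * γ * t / α := by field_simp
          have a2 : ((R ω).card : ℝ) * ((q - p) ^ 2 / α ^ 2) ≤ r * (γ ^ 2 / α ^ 2) := by
            have : (q - p) ^ 2 ≤ γ ^ 2 := by
              rw [← sq_abs (q - p)]; exact pow_le_pow_left₀ (abs_nonneg _) hq 2
            have hr0 : 0 ≤ r := le_trans (by positivity) (hr ω)
            exact mul_le_mul (hr ω) (by gcongr) (by positivity) hr0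
          have := (abs_le.1 a1).1
          have e : 2 * r * γ ^ 2 / α ^ 2 = 2 * (r * (γ ^ 2 / α ^ 2)) := by ring
          linarith

end Pool.Agent.Lib.MP_81a99a_pr
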