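import Pool.Agent.Lib.MP_81a99a_pr.Base

/-! Clusters in the finite model, exploration, one-edge recursion. -/

open Finset Classical

set_option linter.unusedSectionVars false

namespace Pool.Agent.Lib.MP_81a99a_pr

variable {V : Type} [Fintype V]

def op (G : SimpleGraph V) (ω : Set (Sym2 V)) : SimpleGraph V := G ⊓ SimpleGraph.fromEdgeSet ω

lemma op_adj {G : SimpleGraph V} {ω : Set (Sym2 V)} {x y : V} :
    (op G ω).Adj x y ↔ G.Adj x y ∧ s(x, y) ∈ ω := by
  simp only [op, SimpleGraph.inf_adj, SimpleGraph.fromEdgeSet_adj]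
  exact ⟨fun h => ⟨h.1, h.2.1⟩, fun h => ⟨h.1, h.2, h.1.ne⟩⟩

noncomputable def cl (G : SimpleGraph V) (ω : Set (Sym2 V)) (S : Finset V) : Finset V :=
  Finset.univ.filter fun y => ∃ x ∈ S, (op G ω).Reachable x y

variable {G H : SimpleGraph V} {ω ω' : Set (Sym2 V)} {S T : Finset V} {x y : V}

lemma mem_cl : y ∈ cl G ω S ↔ ∃ x ∈ S, (op G ω).Reachable x y := by simp [cl]

lemma mem_cl_single : y ∈ cl G ω {x} ↔ (op G ω).Reachable x y := by simp [cl]

lemma subset_cl : S ⊆ cl G ω S := fun x hx => mem_cl.2 ⟨x, hx, .rfl⟩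

lemma self_mem_cl : x ∈ cl G ω {x} := subset_cl (Finset.mem_singleton_self x)

lemma cl_closed (hx : x ∈ cl G ω S) (h : G.Adj x y) (he : s(x, y) ∈ ω) : y ∈ cl G ω S := by
  obtain ⟨z, hz, hr⟩ := mem_cl.1 hx
  exact mem_cl.2 ⟨z, hz, hr.trans (op_adj.2 ⟨h, he⟩).reachable⟩

lemma cl_subset (hS : S ⊆ T) (hT : ∀ x ∈ T, ∀ y, G.Adj x y → s(x, y) ∈ ω → y ∈ T) :
    cl G ω S ⊆ T := by
  intro y hy
  obtain ⟨z, hz, ⟨w⟩⟩ := mem_cl.1 hy
  have hz' := hS hz
  clear hz hy
  induction w with
  | nil => exact hz'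
  | cons h _ ih => exact ih (hT _ hz' _ (op_adj.1 h).1 (op_adj.1 h).2)

lemma cl_mono (hG : G ≤ H) (hω : ω ⊆ ω') (hS : S ⊆ T) : cl G ω S ⊆ cl H ω' T :=
  cl_subset (hS.trans subset_cl) fun _ hx _ h he => cl_closed hx (hG h) (hω he)

lemma cl_eq_of_mem (h : y ∈ cl G ω {x}) : cl G ω {y} = cl G ω {x} := by
  ext z
  rw [mem_cl_single] at *
  rw [mem_cl_single]
  exact ⟨fun h2 => h.trans h2, fun h2 => h.symm.trans h2⟩

lemma mem_cl_symm (h : y ∈ cl G ω {x}) : x ∈ cl G ω {y} :=
  mem_cl_single.2 (mem_cl_single.1 h).symm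

lemma cl_insert : cl G ω (insert y S) = cl G ω S ∪ cl G ω {y} := by
  ext z
  simp only [mem_cl, Finset.mem_insert, Finset.mem_union, Finset.mem_singleton, exists_eq_left,
    exists_eq_or_imp]
  exact or_comm

lemma one_le_card_cl : 1 ≤ (cl G ω {x}).card := Finset.card_pos.2 ⟨x, self_mem_cl⟩

noncomputable def touch (G : SimpleGraph V) (A : Finset V) : Finset (Sym2 V) :=
  Finset.univ.filter fun e => e ∈ G.edgeSet ∧ ∃ v ∈ A, v ∈ e

lemma mem_touch {e : Sym2 V} : e ∈ touch G S ↔ e ∈ G.edgeSet ∧ ∃ v ∈ S, v ∈ e := by simp [touch]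

lemma mk_mem_touch (hx : x ∈ S) (h : G.Adj x y) : s(x, y) ∈ touch G S :=
  mem_touch.2 ⟨h, x, hx, Sym2.mem_mk_left _ _⟩

lemma touch_mono (h : S ⊆ T) : touch G S ⊆ touch G T := fun _ he => by
  obtain ⟨h1, v, hv, h2⟩ := mem_touch.1 he
  exact mem_touch.2 ⟨h1, v, h hv, h2⟩

def DegLe (G : SimpleGraph V) (D : ℕ) : Prop :=
  ∀ v, (Finset.univ.filter fun y => G.Adj v y).card ≤ D

lemma card_touch {D : ℕ} (hD : DegLe G D) (S : Finset V) : (touch G S).card ≤ D * S.card := by
  have : touch G S ⊆ S.biUnion fun v => (Finset.univ.filter fun y => G.Adj v y).image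
      fun y => s(v, y) := by
    intro e he
    obtain ⟨h1, v, hv, h2⟩ := mem_touch.1 he
    obtain ⟨y, rfl⟩ := Sym2.mem_iff_exists.1 h2
    simp only [Finset.mem_biUnion, Finset.mem_image, Finset.mem_filter, Finset.mem_univ, true_and]
    exact ⟨v, hv, y, h1, rfl⟩
  refine (Finset.card_le_card this).trans (Finset.card_biUnion_le.trans ?_)
  rw [mul_comm]
  exact Finset.sum_le_card_nsmul _ _ _ fun v _ => Finset.card_image_le.trans (hD v)

lemma cl_congr (h : ∀ e ∈ touch G (cl G ω S), (e ∈ ω ↔ e ∈ ω')) : cl G ω' S = cl G ω S := by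
  apply Finset.Subset.antisymm
  · exact cl_subset subset_cl fun x hx y hxy he =>
      cl_closed hx hxy ((h _ (mk_mem_touch hx hxy)).2 he)
  · have : cl G ω S ⊆ cl G ω S ∩ cl G ω' S :=
      cl_subset (Finset.subset_inter subset_cl subset_cl) fun x hx y hxy he => by
        rw [Finset.mem_inter] at hx ⊢
        exact ⟨cl_closed hx.1 hxy he, cl_closed hx.2 hxy ((h _ (mk_mem_touch hx.1 hxy)).1 he)⟩
    exact this.trans Finset.inter_subset_right

lemma dep_cl_eq (G : SimpleGraph V) (S A : Finset V) :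
    DepOn (fun ω => ind (cl G ω S = A)) (touch G A : Set (Sym2 V)) := by
  intro ω ω' h
  refine ind_congr ⟨fun h1 => ?_, fun h1 => ?_⟩
  · rw [← h1]; exact cl_congr fun e he => h e (by rw [← h1]; exact he)
  · rw [← h1]; exact cl_congr fun e he => (h e (by rw [← h1]; exact he)).symm

lemma cl_del_congr {F : Set (Sym2 V)} (h : ∀ e ∈ Fᶜ, (e ∈ ω ↔ e ∈ ω')) :
    cl (G.deleteEdges F) ω S = cl (G.deleteEdges F) ω' S := by
  refine (cl_congr fun e he => h e ?_).symm
  have := (mem_touch.1 he).1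
  rw [SimpleGraph.edgeSet_deleteEdges] at this
  exact this.2

lemma cl_del_touch (hy : y ∉ cl G ω {x}) :
    cl (G.deleteEdges (touch G (cl G ω {x}))) ω {y} = cl G ω {y} := by
  apply Finset.Subset.antisymm (cl_mono (G.deleteEdges_le _) subset_rfl subset_rfl)
  have : cl G ω {y} ⊆ cl G ω {y} ∩ cl (G.deleteEdges (touch G (cl G ω {x}))) ω {y} :=
    cl_subset (Finset.subset_inter subset_cl subset_cl) fun a ha b hab he => by
      rw [Finset.mem_inter] at ha ⊢
      have hb := cl_closed ha.1 hab he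
      refine ⟨hb, cl_closed ha.2 ?_ he⟩
      rw [SimpleGraph.deleteEdges_adj]
      refine ⟨hab, fun ht => hy ?_⟩
      obtain ⟨_, v, hv, h2⟩ := mem_touch.1 (Finset.mem_coe.1 ht)
      have hv' : v ∈ cl G ω {y} := by
        rcases Sym2.mem_iff.1 h2 with rfl | rfl
        exacts [ha.1, hb]
      rw [← cl_eq_of_mem hv]
      exact mem_cl_symm hv'
  exact this.trans Finset.inter_subset_right

lemma cl_del_of_notMem {e : Sym2 V} (he : e ∉ ω) : cl (G.deleteEdges {e}) ω S = cl G ω S := by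
  apply Finset.Subset.antisymm (cl_mono (G.deleteEdges_le _) subset_rfl subset_rfl)
  exact cl_subset subset_cl fun a ha b hab h =>
    cl_closed ha (by
      rw [SimpleGraph.deleteEdges_adj]
      exact ⟨hab, fun h2 => he (by rw [← Set.mem_singleton_iff.1 h2]; exact h)⟩) h

lemma cl_subset_del (hx : x ∈ T) (hy : y ∈ T) (hS : S ⊆ T)
    (hT : ∀ a ∈ T, ∀ b, (G.deleteEdges {s(x, y)}).Adj a b → s(a, b) ∈ ω → b ∈ T) :
    cl G ω S ⊆ T := by
  refine cl_subset hS fun a ha b hab h => ?_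
  by_cases h2 : s(a, b) = s(x, y)
  · rcases Sym2.eq_iff.1 h2 with ⟨_, rfl⟩ | ⟨_, rfl⟩
    exacts [hy, hx]
  · exact hT a ha b (by rw [SimpleGraph.deleteEdges_adj]; exact ⟨hab, h2⟩) h

lemma cl_del_of_mem (hx : x ∈ S) (h : G.Adj x y) (he : s(x, y) ∈ ω) :
    cl (G.deleteEdges {s(x, y)}) ω (insert y S) = cl G ω S := by
  apply Finset.Subset.antisymm
  · refine cl_subset ?_ fun a ha b hab h => cl_closed ha (G.deleteEdges_le _ hab) h
    exact Finset.insert_subset (cl_closed (subset_cl hx) h he) subset_cl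
  · exact cl_subset_del (subset_cl (Finset.mem_insert_of_mem hx))
      (subset_cl (Finset.mem_insert_self _ _)) ((Finset.subset_insert _ _).trans subset_cl)
      fun a ha b hab h => cl_closed ha hab h

lemma Ex_step (p : ℝ) (hx : x ∈ S) (h : G.Adj x y) (F : Finset V → ℝ) :
    Ex p (fun ω => F (cl G ω S)) =
      p * Ex p (fun ω => F (cl (G.deleteEdges {s(x, y)}) ω (insert y S))) +
        (1 - p) * Ex p (fun ω => F (cl (G.deleteEdges {s(x, y)}) ω S)) := by
  refine Ex_split p s(x, y) ?_ ?_ ?_ ?_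
  · intro ω ω' h; exact congrArg F (cl_del_congr h)
  · intro ω ω' h; exact congrArg F (cl_del_congr h)
  · intro ω he; rw [cl_del_of_mem hx h he]
  · intro ω he; rw [cl_del_of_notMem he]

lemma cl_eq_self (h : ∀ x ∈ S, ∀ y, G.Adj x y → y ∈ S) : cl G ω S = S :=
  Finset.Subset.antisymm (cl_subset subset_rfl fun x hx y hxy _ => h x hx y hxy) subset_cl

noncomputable def ne (G : SimpleGraph V) : ℕ := G.edgeSet.ncard

lemma ne_del (h : G.Adj x y) : ne (G.deleteEdges {s(x, y)}) < ne G := by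
  unfold ne
  rw [SimpleGraph.edgeSet_deleteEdges]
  exact Set.ncard_lt_ncard (Set.sdiff_singleton_ssubset.2 h) (Set.toFinite _)

/-- conditioning on the cluster of `x` -/
lemma Ex_cond_cl (p : ℝ) (G : SimpleGraph V) (x : V) (F : Finset V → Set (Sym2 V) → ℝ)
    (hF : ∀ A, DepOn (F A) (touch G A : Set (Sym2 V))ᶜ) :
    Ex p (fun ω => F (cl G ω {x}) ω) = Ex p (fun ω => Ex p (F (cl G ω {x}))) :=
  Ex_cond p (fun ω => cl G ω {x}) (fun A => (touch G A : Set (Sym2 V))) (dep_cl_eq G {x}) F hF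

/-! ### exploration -/

noncomputable def cand (G : SimpleGraph V) (ω : Set (Sym2 V)) (S : Finset V) : Finset V :=
  Finset.univ.filter fun y => y ∉ S ∧ ∃ x ∈ S, G.Adj x y ∧ s(x, y) ∈ ω

noncomputable def grow (S C : Finset V) : Finset V :=
  if h : C.Nonempty then insert h.choose S else S

noncomputable def expl (G : SimpleGraph V) (ω : Set (Sym2 V)) (x : V) : ℕ → Finset V
  | 0 => {x}
  | i + 1 => grow (expl G ω x i) (cand G ω (expl G ω x i))

lemma subset_grow (S C : Finset V) : S ⊆ grow S C := by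
  unfold grow; split_ifs
  exacts [Finset.subset_insert _ _, subset_rfl]

lemma expl_mono {i j : ℕ} (h : i ≤ j) : expl G ω x i ⊆ expl G ω x j := by
  induction h with
  | refl => exact subset_rfl
  | step _ ih => exact ih.trans (subset_grow _ _)

lemma expl_subset (i : ℕ) : expl G ω x i ⊆ cl G ω {x} := by
  induction i with
  | zero => exact subset_cl
  | succ i ih =>
    simp only [expl, grow]
    split_ifs with h
    · refine Finset.insert_subset ?_ ih
      have := h.choose_spec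
      simp only [cand, Finset.mem_filter, Finset.mem_univ, true_and] at this
      obtain ⟨_, a, ha, h1, h2⟩ := this
      exact cl_closed (ih ha) h1 h2
    · exact ih

lemma card_expl (i : ℕ) : (expl G ω x i).card = min (cl G ω {x}).card (i + 1) := by
  induction i with
  | zero =>
    have := one_le_card_cl (G := G) (ω := ω) (x := x)
    simp only [expl, Finset.card_singleton]; omega
  | succ i ih =>
    have hs := Finset.card_le_card (expl_subset (G := G) (ω := ω) (x := x) (i + 1))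
    simp only [expl, grow] at hs ⊢
    split_ifs at hs ⊢ with h
    · have := h.choose_spec
      have h2 : h.choose ∉ expl G ω x i := (Finset.mem_filter.1 this).2.1
      rw [Finset.card_insert_of_notMem h2] at hs ⊢
      omega
    · have : cl G ω {x} ⊆ expl G ω x i := by
        refine cl_subset (expl_mono (Nat.zero_le i)) fun a ha b hab he => ?_
        by_contra hb
        exact h ⟨b, by simp only [cand, Finset.mem_filter, Finset.mem_univ, true_and]
                       exact ⟨hb, a, ha, hab, he⟩⟩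
      have := Finset.card_le_card this
      omega

lemma expl_congr {m : ℕ} (h : ∀ e ∈ touch G (expl G ω x m), (e ∈ ω ↔ e ∈ ω')) {i : ℕ}
    (hi : i ≤ m) : expl G ω' x i = expl G ω x i := by
  induction i with
  | zero => rfl
  | succ i ih =>
    simp only [expl]
    rw [ih (by omega)]
    congr 1
    ext y
    simp only [cand, Finset.mem_filter, Finset.mem_univ, true_and]
    refine and_congr_right fun _ => exists_congr fun a => and_congr_right fun ha =>
      and_congr_right fun hab => ?_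
    exact (h _ (mk_mem_touch (expl_mono (by omega) ha) hab)).symm

/-- transfer of expectations of functions of the truncated cluster size -/
lemma transfer_cl {D : ℕ} (hD : DegLe G D) {p q α γ t B : ℝ} (hα : 0 < α) (h0 : α ≤ p)
    (h1 : α ≤ 1 - p) (hq : |q - p| ≤ γ) (hγ : γ ≤ α / 2) (x : V) {m : ℕ} (hm : 1 ≤ m)
    (F : ℕ → ℝ) (hF0 : ∀ j, 0 ≤ F j) (hFB : ∀ j, j ≤ m → F j ≤ B) (ht : 0 < t) :
    Real.exp (-(2 * γ * t / α + 2 * (D * m) * γ ^ 2 / α ^ 2)) *
      (Ex p (fun ω => F (min (cl G ω {x}).card m)) -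
        B * (D * Ex p (fun ω => ((min (cl G ω {x}).card m : ℕ) : ℝ)) / t ^ 2)) ≤
      Ex q (fun ω => F (min (cl G ω {x}).card m)) := by
  obtain ⟨m, rfl⟩ : ∃ k, m = k + 1 := ⟨m - 1, by omega⟩
  have hB : 0 ≤ B := (hF0 0).trans (hFB 0 (by omega))
  have hc : ∀ ω, ((touch G (expl G ω x m)).card : ℝ) ≤
      D * ((min (cl G ω {x}).card (m + 1) : ℕ) : ℝ) := by
    intro ω
    rw [← card_expl]
    exact_mod_cast card_touch hD _
  refine le_trans ?_ (transfer (R := fun ω => touch G (expl G ω x m)) (r := D * ((m + 1 : ℕ) : ℝ))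
    (B := B) hα h0 h1 hq hγ ?_ ?_ (fun _ => hF0 _) (fun _ => hFB _ (min_le_right _ _)) ?_ ht)
  · have := Ex_mono (by linarith : 0 ≤ p) (by linarith) hc
    rw [Ex_mul_left] at this
    gcongr
  · intro ω ω' h
    beta_reduce
    rw [expl_congr h le_rfl]
  · intro ω ω' h
    beta_reduce
    rw [← card_expl, ← card_expl, expl_congr h le_rfl]
  · intro ω
    refine (hc ω).trans ?_
    gcongr
    exact min_le_right _ _

end Pool.Agent.Lib.MP_81a99a_pr
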