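import Pool.Agent.Lib.MP_81a99a_pr.Cluster

/-! Two stochastic comparisons proved by revealing one edge at a time. -/

open Finset Classical

set_option linter.unusedSectionVars false

namespace Pool.Agent.Lib.MP_81a99a_pr

variable {V : Type} [Fintype V]

/-- weight `exp (-h |A|)` -/
noncomputable def ew (h : ℝ) (A : Finset V) : ℝ := Real.exp (-(h * A.card))

lemma ew_pos (h : ℝ) (A : Finset V) : 0 < ew h A := Real.exp_pos _

lemma ew_anti {h : ℝ} (hh : 0 ≤ h) {A B : Finset V} (hAB : A ⊆ B) : ew h B ≤ ew h A := by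
  unfold ew
  have : (A.card : ℝ) ≤ B.card := by exact_mod_cast Finset.card_le_card hAB
  gcongr

lemma ew_le_one {h : ℝ} (hh : 0 ≤ h) (A : Finset V) : ew h A ≤ 1 := by
  unfold ew
  rw [Real.exp_le_one_iff]
  have : 0 ≤ h * A.card := by positivity
  linarith

lemma ew_union {h : ℝ} (hh : 0 ≤ h) (A B : Finset V) : ew h A * ew h B ≤ ew h (A ∪ B) := by
  unfold ew
  rw [← Real.exp_add, Real.exp_le_exp]
  have : ((A ∪ B).card : ℝ) ≤ A.card + B.card := by exact_mod_cast Finset.card_union_le A B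
  nlinarith

/-- Conditionally on avoiding the ghost, percolation dominates a slightly sparser one. -/
lemma ghost_compare {G : SimpleGraph V} {p q h M : ℝ} (hq0 : 0 ≤ q) (hp0 : 0 ≤ p) (hp1 : p ≤ 1)
    (hh : 0 ≤ h) (hM0 : 0 ≤ M) (hq : q ≤ p * (1 - M))
    (hM : ∀ y, 1 - M ≤ Ex p (fun ω => ew h (cl G ω {y}))) (n : ℕ) :
    ∀ (N : ℕ) (G' : SimpleGraph V), ne G' = N → G' ≤ G → ∀ S : Finset V,
      Ex q (fun ω => ind (n ≤ (cl G' ω S).card)) * Ex p (fun ω => ew h (cl G' ω S)) ≤
        Ex p (fun ω => ew h (cl G' ω S) * ind (n ≤ (cl G' ω S).card)) := by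
  have hq1 : q ≤ 1 := by nlinarith
  intro N
  induction N using Nat.strong_induction_on with
  | _ N ih =>
  intro G' hN hG S
  by_cases hS : ∀ x ∈ S, ∀ y, G'.Adj x y → y ∈ S
  · simp only [cl_eq_self hS, Ex_const]
    rw [mul_comm]
  · push Not at hS
    obtain ⟨x, hx, y, hxy, hy⟩ := hS
    set G'' := G'.deleteEdges {s(x, y)} with hG''
    have hlt : ne G'' < N := hN ▸ ne_del hxy
    have hle : G'' ≤ G := (G'.deleteEdges_le _).trans hG
    have i1 := ih _ hlt G'' rfl hle (insert y S)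
    have i0 := ih _ hlt G'' rfl hle S
    rw [Ex_step q hx hxy (fun A => ind (n ≤ A.card)), Ex_step p hx hxy (fun A => ew h A),
      Ex_step p hx hxy (fun A => ew h A * ind (n ≤ A.card))]
    rw [← hG'']
    set a1 := Ex q (fun ω => ind (n ≤ (cl G'' ω (insert y S)).card))
    set a0 := Ex q (fun ω => ind (n ≤ (cl G'' ω S).card))
    set W1 := Ex p (fun ω => ew h (cl G'' ω (insert y S)))
    set W0 := Ex p (fun ω => ew h (cl G'' ω S))
    have ha : a0 ≤ a1 := Ex_mono hq0 hq1 fun ω => ind_mono fun h =>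
      h.trans (Finset.card_le_card (cl_mono le_rfl subset_rfl (Finset.subset_insert _ _)))
    have hW0 : 0 ≤ W0 := Ex_nonneg hp0 hp1 fun ω => (ew_pos _ _).le
    have hW1 : 0 ≤ W1 := Ex_nonneg hp0 hp1 fun ω => (ew_pos _ _).le
    have hW : W1 ≤ W0 := Ex_mono hp0 hp1 fun ω =>
      ew_anti hh (cl_mono le_rfl subset_rfl (Finset.subset_insert _ _))
    have hW' : W0 * (1 - M) ≤ W1 := by
      have f := Ex_fkg_anti hp0 hp1 (f := fun ω => ew h (cl G'' ω S))
        (g := fun ω => ew h (cl G ω {y}))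
        (fun a b hab => ew_anti hh (cl_mono le_rfl hab subset_rfl))
        (fun a b hab => ew_anti hh (cl_mono le_rfl hab subset_rfl))
        (fun _ => ew_le_one hh _) (fun _ => ew_le_one hh _)
      refine le_trans (mul_le_mul_of_nonneg_left (hM y) hW0) (f.trans ?_)
      refine Ex_mono hp0 hp1 fun ω => ?_
      rw [cl_insert]
      refine le_trans ?_ (ew_union hh _ _)
      exact mul_le_mul_of_nonneg_left (ew_anti hh (cl_mono hle subset_rfl subset_rfl))
        (ew_pos _ _).le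
    have key : q * (p * W1 + (1 - p) * W0) ≤ p * W1 := by
      have : p * W1 + (1 - p) * W0 ≤ W0 := by nlinarith
      calc q * (p * W1 + (1 - p) * W0) ≤ q * W0 := by gcongr
        _ ≤ p * (1 - M) * W0 := by gcongr
        _ = p * (W0 * (1 - M)) := by ring
        _ ≤ p * W1 := by gcongr
    have b1 := mul_le_mul_of_nonneg_left i1 hp0
    have b0 := mul_le_mul_of_nonneg_left i0 (sub_nonneg.2 hp1)
    nlinarith [mul_nonneg (sub_nonneg.2 ha) (sub_nonneg.2 key)]

/-- clusters on a graph are dominated by clusters on a cover -/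
lemma cover_compare {W : Type} [Fintype W] {G : SimpleGraph V} {H : SimpleGraph W} (π : W → V)
    (ρ : W → ℕ) (hlift : ∀ a y, ρ a ≤ Fintype.card V → G.Adj (π a) y →
      ∃ b, H.Adj a b ∧ π b = y ∧ ρ b ≤ ρ a + 1) {p : ℝ} (hp0 : 0 ≤ p) (hp1 : p ≤ 1) (n : ℕ) :
    ∀ (N : ℕ) (G' : SimpleGraph V), ne G' = N → G' ≤ G → ∀ (H' : SimpleGraph W) (S : Finset W),
      (∀ a b, H.Adj a b → G'.Adj (π a) (π b) → H'.Adj a b) → Set.InjOn π S →
      (∀ a ∈ S, ρ a ≤ S.card) →
      Ex p (fun ω => ind (n ≤ (cl G' ω (S.image π)).card)) ≤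
        Ex p (fun ω => ind (n ≤ (cl H' ω S).card)) := by
  intro N
  induction N using Nat.strong_induction_on with
  | _ N ih =>
  intro G' hN hG H' S hH hinj hρ
  have hcard := Finset.card_image_of_injOn hinj
  by_cases hS : ∀ x ∈ S.image π, ∀ y, G'.Adj x y → y ∈ S.image π
  · simp only [cl_eq_self hS, Ex_const]
    rw [← Ex_const (ι := Sym2 W) p (ind _)]
    refine Ex_mono hp0 hp1 fun ω => ind_mono fun h => ?_
    rw [hcard] at h
    exact h.trans (Finset.card_le_card subset_cl)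
  · push Not at hS
    obtain ⟨x, hx, y, hxy, hy⟩ := hS
    obtain ⟨a, ha, rfl⟩ := Finset.mem_image.1 hx
    obtain ⟨b, hab, rfl, hb⟩ := hlift a y
      ((hρ a ha).trans (hcard ▸ Finset.card_le_univ _)) (hG hxy)
    have hbS : b ∉ S := fun h => hy (Finset.mem_image_of_mem _ h)
    have hlt : ne (G'.deleteEdges {s(π a, π b)}) < N := hN ▸ ne_del hxy
    have hle : G'.deleteEdges {s(π a, π b)} ≤ G := (G'.deleteEdges_le _).trans hG
    have hH' : ∀ c d, H.Adj c d → (G'.deleteEdges {s(π a, π b)}).Adj (π c) (π d) →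
        (H'.deleteEdges {s(a, b)}).Adj c d := by
      intro c d h1 h2
      rw [SimpleGraph.deleteEdges_adj] at h2 ⊢
      refine ⟨hH c d h1 h2.1, fun h3 => h2.2 ?_⟩
      have := congrArg (Sym2.map π) (Set.mem_singleton_iff.1 h3)
      simpa using this
    have i0 := ih _ hlt _ rfl hle _ S hH' hinj hρ
    have i1 := ih _ hlt _ rfl hle _ (insert b S) hH' (by
      rw [Finset.coe_insert]
      refine (Set.injOn_insert (by simpa using hbS)).2 ⟨hinj, ?_⟩
      rintro ⟨c, hc, h⟩
      exact hy (Finset.mem_image.2 ⟨c, hc, h⟩)) (by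
      intro c hc
      rw [Finset.card_insert_of_notMem hbS]
      rcases Finset.mem_insert.1 hc with rfl | hc
      · have := hρ a ha; omega
      · have := hρ c hc; omega)
    rw [Finset.image_insert] at i1
    rw [Ex_step p hx hxy (fun A => ind (n ≤ A.card)),
      Ex_step p ha (hH a b hab hxy) (fun A => ind (n ≤ A.card))]
    have b1 := mul_le_mul_of_nonneg_left i1 hp0
    have b0 := mul_le_mul_of_nonneg_left i0 (sub_nonneg.2 hp1)
    linarith

end Pool.Agent.Lib.MP_81a99a_pr
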