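import Pool.Agent.Lib.MP_81a99a_pr.Cluster

/-! A Lipschitz statistic of the cluster sizes and its second moment. -/

open Finset Classical

set_option linter.unusedSectionVars false

namespace Pool.Agent.Lib.MP_81a99a_pr

variable {V : Type} [Fintype V]

structure Bump (g : ℕ → ℝ) (k L : ℕ) : Prop where
  nonneg : ∀ j, 0 ≤ g j
  le_k : ∀ j, g j ≤ k
  le_self : ∀ j, g j ≤ j
  low : ∀ j, j ≤ k → g j = 0
  high : ∀ j, L + k ≤ j → g j = 0
  mid : ∀ j, 2 * k ≤ j → j ≤ L → g j = k
  lip : ∀ a b, g a ≤ g (a + b) + b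

lemma exists_bump (k L : ℕ) : ∃ g, Bump g k L := by
  refine ⟨fun j => max 0 (min (min ((j : ℝ) - k) k) (L + k - j)), ?_⟩
  have hk : (0 : ℝ) ≤ k := by positivity
  constructor
  · intro j; exact le_max_left _ _
  · intro j; exact max_le hk ((min_le_left _ _).trans (min_le_right _ _))
  · intro j
    exact max_le (by positivity) ((min_le_left _ _).trans ((min_le_left _ _).trans (by linarith)))
  · intro j hj
    have : (j : ℝ) ≤ k := by exact_mod_cast hj
    exact max_eq_left ((min_le_left _ _).trans ((min_le_left _ _).trans (by linarith)))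
  · intro j hj
    have : (L : ℝ) + k ≤ j := by exact_mod_cast hj
    exact max_eq_left ((min_le_right _ _).trans (by linarith))
  · intro j h1 h2
    have a1 : 2 * (k : ℝ) ≤ j := by exact_mod_cast h1
    have a2 : (j : ℝ) ≤ L := by exact_mod_cast h2
    rw [min_eq_right (by linarith : (k : ℝ) ≤ j - k), min_eq_left (by linarith), max_eq_right hk]
  · intro a b
    have hb : (0 : ℝ) ≤ b := by positivity
    push_cast
    refine max_le (by positivity) ?_
    have h1 := min_le_left (min ((a : ℝ) - k) k) (L + k - a)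
    have h2 := min_le_right (min ((a : ℝ) - k) k) (L + k - a)
    have h3 := min_le_left ((a : ℝ) - k) k
    have h4 := min_le_right ((a : ℝ) - k) k
    have : min (min ((a : ℝ) - k) k) (L + k - a) - b ≤
        min (min ((a : ℝ) + b - k) k) (L + k - (a + b)) :=
      le_min (le_min (by linarith) (by linarith)) (by linarith)
    have h5 := le_max_right 0 (min (min ((a : ℝ) + b - k) k) (L + k - (a + b)))
    linarith

noncomputable def term (g : ℕ → ℝ) (G : SimpleGraph V) (ω : Set (Sym2 V)) (y : V) : ℝ :=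
  g (cl G ω {y}).card / (cl G ω {y}).card

noncomputable def ZZ (g : ℕ → ℝ) (G : SimpleGraph V) (ω : Set (Sym2 V)) : ℝ := ∑ y, term g G ω y

variable {g : ℕ → ℝ} {k L : ℕ} {G G0 : SimpleGraph V} {ω : Set (Sym2 V)} {x y u v : V}

lemma term_nonneg (hg : Bump g k L) : 0 ≤ term g G ω y :=
  div_nonneg (hg.nonneg _) (by positivity)

lemma ZZ_nonneg (hg : Bump g k L) : 0 ≤ ZZ g G ω := Finset.sum_nonneg fun _ _ => term_nonneg hg

lemma sum_term_cl : ∑ y ∈ cl G ω {x}, term g G ω y = g (cl G ω {x}).card := by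
  rw [Finset.sum_congr rfl (g := fun _ => term g G ω x) fun y hy => by
    unfold term; rw [cl_eq_of_mem hy]]
  rw [Finset.sum_const, nsmul_eq_mul, term]
  have : (0 : ℝ) < (cl G ω {x}).card := by exact_mod_cast one_le_card_cl
  field_simp

lemma bump_split (hg : Bump g k L) (a b : ℕ) : g a + g b ≤ g (a + b) +
    2 * (((min a k : ℕ) : ℝ) * ind (k < b) + ((min b k : ℕ) : ℝ) * ind (k < a)) := by
  have h0 := hg.nonneg (a + b)
  have m : ∀ c, g c ≤ ((min c k : ℕ) : ℝ) := fun c => by
    push_cast; exact le_min (hg.le_self c) (hg.le_k c)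
  have l1 : g a ≤ g (a + b) + ((min b k : ℕ) : ℝ) := by
    push_cast
    rcases le_total (b : ℝ) k with h | h
    · rw [min_eq_left h]; exact hg.lip a b
    · rw [min_eq_right h]; linarith [hg.le_k a]
  have l2 : g b ≤ g (a + b) + ((min a k : ℕ) : ℝ) := by
    push_cast
    rcases le_total (a : ℝ) k with h | h
    · rw [min_eq_left h, add_comm a b]; exact hg.lip b a
    · rw [min_eq_right h]; linarith [hg.le_k b]
  have pa : (0 : ℝ) ≤ ((min a k : ℕ) : ℝ) := by positivity
  have pb : (0 : ℝ) ≤ ((min b k : ℕ) : ℝ) := by positivity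
  by_cases ha : k < a <;> by_cases hb : k < b
  · rw [ind_pos ha, ind_pos hb]; linarith [m b]
  · rw [ind_pos ha, ind_neg hb]; linarith [m b]
  · rw [ind_neg ha, ind_pos hb]; linarith [m a]
  · rw [ind_neg ha, ind_neg hb, hg.low a (by omega), hg.low b (by omega)]; linarith

lemma ZZ_del (hg : Bump g k L) (h : G.Adj u v) (ω : Set (Sym2 V)) :
    ZZ g (G.deleteEdges {s(u, v)}) ω ≤ ZZ g G ω +
      2 * (ind (v ∉ cl (G.deleteEdges {s(u, v)}) ω {u}) *
          ((min (cl (G.deleteEdges {s(u, v)}) ω {u}).card k : ℕ) : ℝ) *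
            ind (k < (cl (G.deleteEdges {s(u, v)}) ω {v}).card) +
        ind (u ∉ cl (G.deleteEdges {s(u, v)}) ω {v}) *
          ((min (cl (G.deleteEdges {s(u, v)}) ω {v}).card k : ℕ) : ℝ) *
            ind (k < (cl (G.deleteEdges {s(u, v)}) ω {u}).card)) := by
  set G' := G.deleteEdges {s(u, v)} with hG'
  have hle : G' ≤ G := G.deleteEdges_le _
  have same : ∀ y, (u ∈ cl G' ω {y} ↔ v ∈ cl G' ω {y}) → cl G' ω {y} = cl G ω {y} := by
    intro y hy
    apply Finset.Subset.antisymm (cl_mono hle subset_rfl subset_rfl)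
    refine cl_subset subset_cl fun a ha b hab he => ?_
    by_cases h2 : s(a, b) = s(u, v)
    · rcases Sym2.eq_iff.1 h2 with ⟨rfl, rfl⟩ | ⟨rfl, rfl⟩
      exacts [hy.1 ha, hy.2 ha]
    · exact cl_closed ha (by rw [hG', SimpleGraph.deleteEdges_adj]; exact ⟨hab, h2⟩) he
  have nn : ∀ (P Q : Prop) (j : ℕ), 0 ≤ ind P * (j : ℝ) * ind Q := fun P Q j =>
    mul_nonneg (mul_nonneg (ind_nonneg _) (by positivity)) (ind_nonneg _)
  have easy : (∀ y, cl G' ω {y} = cl G ω {y}) → ZZ g G' ω = ZZ g G ω := fun hh => by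
    unfold ZZ term; simp only [hh]
  by_cases he : s(u, v) ∈ ω
  swap
  · rw [easy fun y => cl_del_of_notMem he]
    linarith [nn (v ∉ cl G' ω {u}) (k < (cl G' ω {v}).card) (min (cl G' ω {u}).card k),
      nn (u ∉ cl G' ω {v}) (k < (cl G' ω {u}).card) (min (cl G' ω {v}).card k)]
  by_cases huv : v ∈ cl G' ω {u}
  · rw [easy fun y => same y ⟨fun h1 => by rw [← cl_eq_of_mem h1]; exact huv,
      fun h1 => by rw [← cl_eq_of_mem h1]; exact mem_cl_symm huv⟩]
    linarith [nn (v ∉ cl G' ω {u}) (k < (cl G' ω {v}).card) (min (cl G' ω {u}).card k),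
      nn (u ∉ cl G' ω {v}) (k < (cl G' ω {u}).card) (min (cl G' ω {v}).card k)]
  have hvu : u ∉ cl G' ω {v} := fun h1 => huv (mem_cl_symm h1)
  rw [ind_pos huv, ind_pos hvu, one_mul, one_mul]
  have hU : cl G ω {u} = cl G' ω {u} ∪ cl G' ω {v} := by
    rw [← cl_insert, hG', cl_del_of_mem (Finset.mem_singleton_self u) h he]
  have hdisj : Disjoint (cl G' ω {u}) (cl G' ω {v}) := by
    rw [Finset.disjoint_left]
    intro a h1 h2
    apply huv
    rw [← cl_eq_of_mem h1]
    exact mem_cl_symm h2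
  have e1 : ZZ g G' ω = g (cl G' ω {u}).card + g (cl G' ω {v}).card +
      ∑ y ∈ (cl G ω {u})ᶜ, term g G ω y := by
    unfold ZZ
    rw [← Finset.sum_add_sum_compl (cl G ω {u})]
    congr 1
    · rw [hU, Finset.sum_union hdisj, sum_term_cl, sum_term_cl]
    · refine Finset.sum_congr rfl fun y hy => ?_
      rw [hU, Finset.mem_compl, Finset.mem_union, not_or] at hy
      unfold term
      rw [same y ⟨fun h1 => absurd (mem_cl_symm h1) hy.1, fun h1 => absurd (mem_cl_symm h1) hy.2⟩]
  have e2 : ZZ g G ω = g ((cl G' ω {u}).card + (cl G' ω {v}).card) +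
      ∑ y ∈ (cl G ω {u})ᶜ, term g G ω y := by
    unfold ZZ
    rw [← Finset.sum_add_sum_compl (cl G ω {u}), sum_term_cl, hU,
      Finset.card_union_of_disjoint hdisj]
  rw [e1, e2]
  linarith [bump_split hg (cl G' ω {u}).card (cl G' ω {v}).card]

lemma neg_corr {p a b : ℝ} (hp0 : 0 ≤ p) (hp1 : p ≤ 1) (hG : G ≤ G0) {φ ψ : ℕ → ℝ}
    (hφ : Monotone φ) (hψ : Monotone ψ) (hφ0 : ∀ j, 0 ≤ φ j) (hψ0 : ∀ j, 0 ≤ ψ j)
    (ha : Ex p (fun ω => φ (cl G0 ω {u}).card) ≤ a)
    (hb : Ex p (fun ω => ψ (cl G0 ω {v}).card) ≤ b) :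
    Ex p (fun ω => ind (v ∉ cl G ω {u}) * φ (cl G ω {u}).card * ψ (cl G ω {v}).card) ≤ a * b := by
  have hb0 : 0 ≤ b := (Ex_nonneg hp0 hp1 fun _ => hψ0 _).trans hb
  have h1 := Ex_cond_cl p G u
    (fun A ω => φ A.card * ψ (cl (G.deleteEdges (touch G A)) ω {v}).card)
    (fun A ω ω' h => by beta_reduce; rw [cl_del_congr h])
  calc _ ≤ Ex p (fun ω => φ (cl G ω {u}).card *
        ψ (cl (G.deleteEdges (touch G (cl G ω {u}))) ω {v}).card) := by
        refine Ex_mono hp0 hp1 fun ω => ?_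
        by_cases h : v ∈ cl G ω {u}
        · rw [ind_neg (not_not.2 h), zero_mul, zero_mul]
          exact mul_nonneg (hφ0 _) (hψ0 _)
        · rw [ind_pos h, one_mul, cl_del_touch h]
    _ = _ := h1
    _ ≤ Ex p (fun ω => φ (cl G0 ω {u}).card * b) := by
        refine Ex_mono hp0 hp1 fun ω => ?_
        rw [Ex_mul_left]
        refine mul_le_mul (hφ (Finset.card_le_card (cl_mono hG subset_rfl subset_rfl))) ?_
          (Ex_nonneg hp0 hp1 fun _ => hψ0 _) (hφ0 _)
        refine le_trans (Ex_mono hp0 hp1 fun η => hψ (Finset.card_le_card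
          (cl_mono ((G.deleteEdges_le _).trans hG) subset_rfl subset_rfl))) hb
    _ ≤ a * b := by rw [Ex_mul_right]; gcongr

lemma Ex_ZZ_del (hg : Bump g k L) {p T Φ : ℝ} (hp0 : 0 ≤ p) (hp1 : p ≤ 1)
    (hT : ∀ x, Ex p (fun ω => ind (k < (cl G0 ω {x}).card)) ≤ T)
    (hΦ : ∀ x, Ex p (fun ω => ((min (cl G0 ω {x}).card k : ℕ) : ℝ)) ≤ Φ) (hTΦ : 0 ≤ Φ * T)
    (F : Finset (Sym2 V)) :
    Ex p (ZZ g (G0.deleteEdges F)) ≤ Ex p (ZZ g G0) + F.card * (4 * (Φ * T)) := by
  induction F using Finset.induction_on with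
  | empty => simp
  | insert e F he ih =>
    rw [Finset.card_insert_of_notMem he]
    have e1 : G0.deleteEdges (insert e F : Finset _) = (G0.deleteEdges F).deleteEdges {e} := by
      rw [SimpleGraph.deleteEdges_deleteEdges, Finset.coe_insert, Set.union_singleton]
    rw [e1]
    push_cast
    suffices h : Ex p (ZZ g ((G0.deleteEdges F).deleteEdges {e})) ≤
        Ex p (ZZ g (G0.deleteEdges F)) + 4 * (Φ * T) by linarith
    generalize hG : G0.deleteEdges F = G
    have hle : G ≤ G0 := hG ▸ G0.deleteEdges_le _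
    induction e using Sym2.ind with
    | h u v =>
    by_cases h : G.Adj u v
    · have hle' : G.deleteEdges {s(u, v)} ≤ G0 := (G.deleteEdges_le _).trans hle
      have m1 : Monotone fun j : ℕ => ((min j k : ℕ) : ℝ) := fun a b hab => by
        beta_reduce; exact_mod_cast min_le_min_right k hab
      have m2 : Monotone fun j : ℕ => ind (k < j) := fun a b hab =>
        ind_mono fun h => lt_of_lt_of_le h hab
      have c1 := neg_corr hp0 hp1 hle' m1 m2 (fun _ => by positivity) (fun _ => ind_nonneg _)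
        (hΦ u) (hT v)
      have c2 := neg_corr hp0 hp1 hle' m1 m2 (fun _ => by positivity) (fun _ => ind_nonneg _)
        (hΦ v) (hT u)
      have := Ex_mono hp0 hp1 (ZZ_del hg h)
      rw [Ex_add, Ex_mul_left, Ex_add] at this
      linarith
    · have : G.deleteEdges {s(u, v)} = G := by
        rw [SimpleGraph.deleteEdges_eq_self]
        simpa using h
      rw [this]; linarith

lemma second_moment (hg : Bump g k L) {D : ℕ} (hD : DegLe G D) {p T Φ : ℝ} (hp0 : 0 ≤ p)
    (hp1 : p ≤ 1) (hT : ∀ x, Ex p (fun ω => ind (k < (cl G ω {x}).card)) ≤ T)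
    (hΦ : ∀ x, Ex p (fun ω => ((min (cl G ω {x}).card k : ℕ) : ℝ)) ≤ Φ) (hTΦ : 0 ≤ Φ * T) :
    Ex p (fun ω => ZZ g G ω ^ 2) ≤
      Ex p (ZZ g G) * (Ex p (ZZ g G) + (k + D * (L + k) * (4 * (Φ * T)))) := by
  have h1 : ∀ x, Ex p (fun ω => term g G ω x * ZZ g G ω) ≤
      Ex p (fun ω => term g G ω x) * (Ex p (ZZ g G) + (k + D * (L + k) * (4 * (Φ * T)))) := by
    intro x
    have c := Ex_cond_cl p G x
      (fun A ω => g A.card / A.card * (k + ZZ g (G.deleteEdges (touch G A)) ω))
      (fun A ω ω' h => by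
        beta_reduce
        unfold ZZ term
        simp only [cl_del_congr h])
    calc _ ≤ Ex p (fun ω => g (cl G ω {x}).card / (cl G ω {x}).card *
          (k + ZZ g (G.deleteEdges (touch G (cl G ω {x}))) ω)) := by
          refine Ex_mono hp0 hp1 fun ω => mul_le_mul_of_nonneg_left ?_ (term_nonneg hg)
          unfold ZZ
          rw [← Finset.sum_add_sum_compl (cl G ω {x}), sum_term_cl]
          refine add_le_add (hg.le_k _) (le_trans (le_of_eq ?_)
            (Finset.sum_le_sum_of_subset_of_nonneg (Finset.subset_univ (cl G ω {x})ᶜ)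
              fun _ _ _ => term_nonneg hg))
          refine Finset.sum_congr rfl fun y hy => ?_
          unfold term
          rw [cl_del_touch (Finset.mem_compl.1 hy)]
      _ = _ := c
      _ ≤ _ := by
          rw [← Ex_mul_right]
          refine Ex_mono hp0 hp1 fun ω => ?_
          rw [Ex_mul_left, Ex_add, Ex_const]
          by_cases hL : L + k ≤ (cl G ω {x}).card
          · unfold term
            rw [hg.high _ hL]; simp
          · refine mul_le_mul_of_nonneg_left ?_ (term_nonneg hg)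
            have d := Ex_ZZ_del hg hp0 hp1 hT hΦ hTΦ (touch G (cl G ω {x}))
            have d2 : ((touch G (cl G ω {x})).card : ℝ) ≤ D * (L + k) := by
              have := (card_touch hD (cl G ω {x})).trans (Nat.mul_le_mul_left D (not_le.1 hL).le)
              exact_mod_cast this
            have := mul_le_mul_of_nonneg_right d2 (by linarith : 0 ≤ 4 * (Φ * T))
            linarith
  have e : ∀ ω, ZZ g G ω ^ 2 = ∑ x, term g G ω x * ZZ g G ω := fun ω => by
    rw [← Finset.sum_mul, sq]; rfl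
  rw [Ex_congr e, Ex_sum]
  refine (Finset.sum_le_sum fun x _ => h1 x).trans (le_of_eq ?_)
  rw [← Finset.sum_mul, ← Ex_sum]
  rfl

/-- there are `m` different clusters with at least `k` vertices -/
def Many (G : SimpleGraph V) (ω : Set (Sym2 V)) (m k : ℕ) : Prop :=
  ∃ S : Finset V, S.card = m ∧ (∀ x ∈ S, ∀ y ∈ S, x ≠ y → y ∉ cl G ω {x}) ∧
    ∀ x ∈ S, k ≤ (cl G ω {x}).card

lemma ZZ_le_of_not_many (hg : Bump g k L) {m : ℕ} (h : ¬ Many G ω m k) : ZZ g G ω ≤ m * k := by
  set B : Finset V := Finset.univ.filter fun y => k < (cl G ω {y}).card with hB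
  set N : Finset (Finset V) := B.image fun y => cl G ω {y} with hN
  have hc : N.card ≤ m := by
    by_contra hc
    obtain ⟨N', h1, h2⟩ := Finset.exists_subset_card_eq (not_le.1 hc).le
    have : ∀ A ∈ N', ∃ y, k < (cl G ω {y}).card ∧ cl G ω {y} = A := fun A hA => by
      simpa [hN, hB] using h1 hA
    choose r hr using this
    apply h
    refine ⟨N'.attach.image fun A => r A.1 A.2, ?_, ?_, ?_⟩
    · rw [Finset.card_image_of_injective, Finset.card_attach, h2]
      intro A B hAB
      apply Subtype.ext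
      rw [← (hr A.1 A.2).2, ← (hr B.1 B.2).2]
      exact congrArg (fun y => cl G ω {y}) hAB
    · intro x hx y hy hxy hm
      obtain ⟨A, _, rfl⟩ := Finset.mem_image.1 hx
      obtain ⟨B, _, rfl⟩ := Finset.mem_image.1 hy
      apply hxy
      have := cl_eq_of_mem hm
      rw [(hr A.1 A.2).2, (hr B.1 B.2).2] at this
      rw [show A = B from Subtype.ext this.symm]
    · intro x hx
      obtain ⟨A, _, rfl⟩ := Finset.mem_image.1 hx
      exact (hr A.1 A.2).1.le
  have e1 : ZZ g G ω = ∑ y ∈ B, term g G ω y := by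
    unfold ZZ
    rw [Finset.sum_subset (Finset.subset_univ B)]
    intro y _ hy
    unfold term
    rw [hg.low _ (by simpa [hB] using hy), zero_div]
  rw [e1, ← Finset.sum_fiberwise_of_maps_to (t := N) (g := fun y => cl G ω {y})
    fun y hy => Finset.mem_image_of_mem _ hy]
  calc _ ≤ ∑ _A ∈ N, (k : ℝ) := by
        refine Finset.sum_le_sum fun A hA => ?_
        obtain ⟨x, _, rfl⟩ := Finset.mem_image.1 hA
        refine le_trans ?_ (hg.le_k (cl G ω {x}).card)
        rw [← sum_term_cl (g := g)]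
        refine Finset.sum_le_sum_of_subset_of_nonneg (fun y hy => ?_) fun _ _ _ => term_nonneg hg
        rw [← (Finset.mem_filter.1 hy).2]
        exact self_mem_cl
    _ ≤ m * k := by
        rw [Finset.sum_const, nsmul_eq_mul]
        gcongr

/-- second moment bound for the absence of `m` large clusters -/
lemma not_many_le (hg : Bump g k L) {D m : ℕ} (hm : 1 ≤ m) (hD : DegLe G D) {p T Φ μ : ℝ}
    (hp0 : 0 ≤ p) (hp1 : p ≤ 1) (hT : ∀ x, Ex p (fun ω => ind (k < (cl G ω {x}).card)) ≤ T)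
    (hΦ : ∀ x, Ex p (fun ω => ((min (cl G ω {x}).card k : ℕ) : ℝ)) ≤ Φ) (hTΦ : 0 ≤ Φ * T)
    (hμ : 0 < μ) (hZ : μ ≤ Ex p (ZZ g G)) :
    Ex p (fun ω => ind (¬ Many G ω m k)) ≤ 4 * m * (k + D * (L + k) * (4 * (Φ * T))) / μ := by
  set E := Ex p (ZZ g G) with hE
  set B : ℝ := k + D * (L + k) * (4 * (Φ * T)) with hB
  have hE0 : 0 < E := hμ.trans_le hZ
  have hkB : (k : ℝ) ≤ B := by
    have : (0 : ℝ) ≤ D * (L + k) * (4 * (Φ * T)) := by positivity
    linarith
  have hB0 : 0 ≤ B := le_trans (by positivity) hkB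
  have hm1 : (1 : ℝ) ≤ m := by exact_mod_cast hm
  refine le_trans ?_ (show 4 * m * B / E ≤ 4 * m * B / μ by gcongr)
  by_cases hbig : 2 * (m * k) ≤ E
  · have mk := markov hp0 hp1 (f := fun ω => ZZ g G ω - E) (t := E / 2) (by positivity)
    have s2 := second_moment hg hD hp0 hp1 hT hΦ hTΦ
    have v : Ex p (fun ω => (ZZ g G ω - E) ^ 2) = Ex p (fun ω => ZZ g G ω ^ 2) - E ^ 2 := by
      rw [Ex_congr (g := fun ω => ZZ g G ω ^ 2 - 2 * E * ZZ g G ω + E ^ 2) fun ω => by ring,
        Ex_add, Ex_sub, Ex_mul_left, Ex_const]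
      change _ - 2 * E * E + _ = _
      ring
    calc _ ≤ Ex p (fun ω => ind (E / 2 ≤ |ZZ g G ω - E|)) := by
          refine Ex_mono hp0 hp1 fun ω => ind_mono fun h => ?_
          have := ZZ_le_of_not_many hg h
          rw [le_abs]; right; linarith
      _ ≤ _ := mk
      _ ≤ E * B / (E / 2) ^ 2 := by
          rw [v]; gcongr; nlinarith
      _ = 4 * B / E := by field_simp; ring
      _ ≤ 4 * m * B / E := by gcongr; linarith
  · refine (Ex_le_const hp0 hp1 fun ω => ind_le_one _).trans ?_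
    rw [le_div_iff₀ hE0]
    have : (m : ℝ) * k ≤ m * B := by gcongr
    nlinarith

end Pool.Agent.Lib.MP_81a99a_pr
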