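import Pool.Agent.Lib.MP_81a99a_pr.Compare
import Pool.Agent.Lib.MP_81a99a_pr.Second

/-! The non-asymptotic estimate on a finite transitive graph. -/

open Finset Classical

set_option linter.unusedSectionVars false

namespace Pool.Agent.Lib.MP_81a99a_pr

variable {V : Type} [Fintype V]

noncomputable def tl (G : SimpleGraph V) (p : ℝ) (x : V) (j : ℕ) : ℝ :=
  Ex p (fun ω => ind (j ≤ (cl G ω {x}).card))

noncomputable def ph (G : SimpleGraph V) (p : ℝ) (x : V) (m : ℕ) : ℝ :=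
  Ex p (fun ω => ((min (cl G ω {x}).card m : ℕ) : ℝ))

lemma min_eq_sum (c m : ℕ) : ((min c m : ℕ) : ℝ) = ∑ j ∈ range m, ind (j + 1 ≤ c) := by
  induction m with
  | zero => simp
  | succ m ih =>
    rw [Finset.sum_range_succ, ← ih]
    by_cases h : m + 1 ≤ c
    · rw [ind_pos h, min_eq_right h, min_eq_right (by omega)]; push_cast; ring
    · rw [ind_neg h, min_eq_left (by omega), min_eq_left (by omega), add_zero]

lemma sum_inv_sqrt (m : ℕ) : ∑ j ∈ range m, 1 / √((j + 1 : ℕ) : ℝ) ≤ 2 * √(m : ℝ) := by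
  induction m with
  | zero => simp
  | succ m ih =>
    rw [Finset.sum_range_succ]
    have h1 : 0 < √((m + 1 : ℕ) : ℝ) := Real.sqrt_pos.2 (by positivity)
    have h2 := Real.sq_sqrt (show (0 : ℝ) ≤ ((m + 1 : ℕ) : ℝ) by positivity)
    have h3 := Real.sq_sqrt (show (0 : ℝ) ≤ (m : ℝ) by positivity)
    have : 1 / √((m + 1 : ℕ) : ℝ) ≤ 2 * √((m + 1 : ℕ) : ℝ) - 2 * √(m : ℝ) := by
      rw [div_le_iff₀ h1]
      push_cast at *
      nlinarith [sq_nonneg (√((m : ℝ) + 1) - √(m : ℝ))]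
    linarith

variable {G : SimpleGraph V}

lemma ph_le {p C : ℝ} {x : V} (hC : 0 ≤ C) (hU : ∀ j, 1 ≤ j → tl G p x j ≤ C / √(j : ℝ)) (m : ℕ) :
    ph G p x m ≤ 2 * C * √(m : ℝ) := by
  unfold ph
  simp only [min_eq_sum]
  rw [Ex_sum]
  calc _ ≤ ∑ j ∈ range m, C * (1 / √((j + 1 : ℕ) : ℝ)) :=
        Finset.sum_le_sum fun j _ => by rw [mul_one_div]; exact hU _ (by omega)
    _ ≤ C * (2 * √(m : ℝ)) := by rw [← Finset.mul_sum]; gcongr; exact sum_inv_sqrt m
    _ = _ := by ring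

lemma stepA {D : ℕ} (hD1 : 1 ≤ D) (hD : DegLe G D) {α C p0 p ε : ℝ} (hα : 0 < α) (hC : 0 ≤ C)
    (h0 : α ≤ p0) (h1 : α ≤ 1 - p0) (hε : 0 < ε) (hε' : ε ≤ α / 4) (hp : |p - p0| ≤ ε) {x : V}
    (hU : ∀ j, 1 ≤ j → tl G p0 x j ≤ C / √(j : ℝ)) {k : ℕ} (hk : 1 ≤ ε ^ 2 * k) :
    Ex p (fun ω => ind (k < (cl G ω {x}).card)) ≤
        4 * C * Real.exp (8 * D / α + 16 * D / α ^ 2) * ε ∧
      ph G p x k ≤ 3 * (4 * C * Real.exp (8 * D / α + 16 * D / α ^ 2)) * (k * ε) := by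
  have hp' := abs_le.1 hp
  have hp0 : 0 ≤ p := by linarith
  have hp1 : p ≤ 1 := by linarith
  have hD' : (1 : ℝ) ≤ D := by exact_mod_cast hD1
  set m := ⌈1 / ε ^ 2⌉₊ with hm
  have m1 : 1 ≤ ε ^ 2 * m := by
    have := Nat.le_ceil (1 / ε ^ 2)
    rw [div_le_iff₀ (by positivity)] at this
    linarith
  have m2 : ε ^ 2 * m ≤ 2 := by
    have := (Nat.ceil_lt_add_one (show 0 ≤ 1 / ε ^ 2 by positivity)).le
    have h2 := mul_le_mul_of_nonneg_left this (sq_nonneg ε)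
    rw [mul_add, mul_one_div_cancel (by positivity)] at h2
    nlinarith
  have m3 : m ≤ k := Nat.ceil_le.2 (by rw [div_le_iff₀ (by positivity)]; linarith)
  have m4 : 1 ≤ m := by
    by_contra h
    rw [show m = 0 by omega] at m1
    norm_num at m1
  have m5 : (0 : ℝ) < m := by exact_mod_cast m4
  have t0 : 0 < √(2 * D * m : ℝ) := Real.sqrt_pos.2 (by positivity)
  have tr := transfer_cl hD (p := p) (q := p0) (α := α / 2) (γ := ε) (t := √(2 * D * m)) (B := m)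
    (by positivity) (by linarith) (by linarith) (by rwa [abs_sub_comm]) (by linarith) x m4
    (fun j => j) (fun _ => by positivity) (fun j hj => by exact_mod_cast hj) t0
  rw [Real.sq_sqrt (by positivity)] at tr
  change _ * (ph G p x m - m * (D * ph G p x m / _)) ≤ ph G p0 x m at tr
  set E := Real.exp (8 * D / α + 16 * D / α ^ 2) with hE
  have hE0 : 0 < E := Real.exp_pos _
  have phn : 0 ≤ ph G p x m := Ex_nonneg hp0 hp1 fun _ => by positivity
  have a1 : ph G p x m ≤ 4 * C * E * √(m : ℝ) := by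
    have b1 := ph_le hC hU m
    have b2 : ph G p x m - m * (D * ph G p x m / (2 * D * m)) = ph G p x m / 2 := by
      field_simp; ring
    rw [b2] at tr
    have b3 : ε * √(2 * D * m : ℝ) ≤ 2 * D := by
      refine le_of_sq_le_sq ?_ (by positivity)
      rw [mul_pow, Real.sq_sqrt (by positivity)]
      nlinarith
    have b4 : E⁻¹ ≤ Real.exp (-(2 * ε * √(2 * D * m : ℝ) / (α / 2) +
        2 * (D * m) * ε ^ 2 / (α / 2) ^ 2)) := by
      rw [hE, ← Real.exp_neg, Real.exp_le_exp, neg_le_neg_iff]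
      refine add_le_add ?_ ?_
      · rw [div_le_div_iff₀ (by positivity) hα]; nlinarith
      · rw [div_le_div_iff₀ (by positivity) (by positivity)]
        have := mul_le_mul_of_nonneg_left m2 (show 0 ≤ 2 * D * α ^ 2 by positivity)
        nlinarith
    have b5 : E⁻¹ * (ph G p x m / 2) ≤ 2 * C * √(m : ℝ) :=
      le_trans (mul_le_mul_of_nonneg_right b4 (by positivity)) (tr.trans b1)
    rw [inv_mul_le_iff₀ hE0] at b5
    linarith
  have s0 : 0 < √(m : ℝ) := Real.sqrt_pos.2 m5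
  have s1 := Real.sq_sqrt m5.le
  have s2 : 1 ≤ ε * √(m : ℝ) := by
    refine le_of_sq_le_sq ?_ (by positivity)
    rw [mul_pow, s1]; linarith
  have a2 : tl G p x m ≤ 4 * C * E * ε := by
    have : m * tl G p x m ≤ ph G p x m := by
      unfold tl ph
      rw [← Ex_mul_left]
      refine Ex_mono hp0 hp1 fun ω => ?_
      by_cases h : m ≤ (cl G ω {x}).card
      · rw [ind_pos h, min_eq_right h, mul_one]
      · rw [ind_neg h, mul_zero]; positivity
    refine le_of_mul_le_mul_left (this.trans (a1.trans ?_)) m5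
    have := mul_le_mul_of_nonneg_left s2 (show 0 ≤ 4 * C * E * √(m : ℝ) by positivity)
    calc 4 * C * E * √(m : ℝ) ≤ 4 * C * E * √(m : ℝ) * (ε * √(m : ℝ)) := by linarith
      _ = √(m : ℝ) ^ 2 * (4 * C * E * ε) := by ring
      _ = _ := by rw [s1]
  refine ⟨le_trans (Ex_mono hp0 hp1 fun ω => ind_mono fun h => by omega) a2, ?_⟩
  have a3 : ph G p x k ≤ ph G p x m + k * tl G p x m := by
    unfold tl ph
    rw [← Ex_mul_left, ← Ex_add]
    refine Ex_mono hp0 hp1 fun ω => ?_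
    by_cases h : m ≤ (cl G ω {x}).card
    · rw [ind_pos h, mul_one]
      have : min (cl G ω {x}).card k ≤ min (cl G ω {x}).card m + k := by omega
      exact_mod_cast this
    · rw [ind_neg h, mul_zero, add_zero]
      have : min (cl G ω {x}).card k ≤ min (cl G ω {x}).card m := by omega
      exact_mod_cast this
  have a4 : √(m : ℝ) ≤ 2 * (k * ε) := by
    have c1 : ε * √(m : ℝ) ≤ 2 := by
      refine le_of_sq_le_sq ?_ (by positivity)
      rw [mul_pow, s1]; linarith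
    refine le_of_mul_le_mul_left ?_ hε
    nlinarith
  have a5 := mul_le_mul_of_nonneg_left a4 (show 0 ≤ 4 * C * E by positivity)
  have a6 := mul_le_mul_of_nonneg_left a2 (show (0 : ℝ) ≤ k by positivity)
  nlinarith

lemma stepB {D : ℕ} (hD1 : 1 ≤ D) (hD : DegLe G D) {α C c0 p0 : ℝ} (hα : 0 < α) (hC : 0 < C)
    (hc0 : 0 < c0) (h0 : α ≤ p0) (h1 : α ≤ 1 - p0)
    (hT : ∀ x y (F : ℕ → ℝ), Ex p0 (fun ω => F (cl G ω {x}).card) =
      Ex p0 (fun ω => F (cl G ω {y}).card)) {x : V}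
    (hU : ∀ j, 1 ≤ j → tl G p0 x j ≤ C / √(j : ℝ)) {J : ℕ} (hJ : c0 / √(J : ℝ) ≤ tl G p0 x J)
    {h : ℝ} (hh0 : 0 < h) (hh1 : h ≤ 1) (hhJ : 8 ≤ h * J) :
    α / (16 * (√(4 * D * C / c0) + D + 1)) * √h ≤ 1 - Ex p0 (fun ω => ew h (cl G ω {x})) := by
  by_contra hcon
  rw [not_le] at hcon
  have hD' : (1 : ℝ) ≤ D := by exact_mod_cast hD1
  set s := √(4 * D * C / c0) with hs
  have s0 : 0 < s := Real.sqrt_pos.2 (by positivity)
  have s1 : s ^ 2 = 4 * D * C / c0 := Real.sq_sqrt (by positivity)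
  set c1 := α / (16 * (s + D + 1)) with hc1
  have c10 : 0 < c1 := by positivity
  have c11 : c1 * (16 * (s + D + 1)) = α := by rw [hc1]; field_simp
  set M := 1 - Ex p0 (fun ω => ew h (cl G ω {x})) with hM
  have hp0 : 0 ≤ p0 := by linarith
  have hp1 : p0 ≤ 1 := by linarith
  have M0 : 0 ≤ M := sub_nonneg.2 (Ex_le_const hp0 hp1 fun _ => ew_le_one hh0.le _)
  have r0 : 0 < √h := Real.sqrt_pos.2 hh0
  have r1 : √h ≤ 1 := Real.sqrt_le_one.2 hh1
  have r2 := Real.sq_sqrt hh0.le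
  have g1 : c1 * √h ≤ α / 2 := by nlinarith
  have J0 : (0 : ℝ) < J := by
    by_contra hh
    nlinarith
  have J1 : 1 ≤ J := by exact_mod_cast J0
  have j0 : 0 < √(J : ℝ) := Real.sqrt_pos.2 J0
  have j1 := Real.sq_sqrt J0.le
  have gc := ghost_compare (G := G) (p := p0) (q := p0 * (1 - M)) (h := h) (M := M)
    (mul_nonneg hp0 (by linarith)) hp0 hp1 hh0.le M0 le_rfl
    (fun y => by
      have := hT x y fun j => Real.exp (-(h * j))
      rw [hM, sub_sub_cancel]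
      exact this.le) J _ G rfl le_rfl {x}
  rw [show Ex p0 (fun ω => ew h (cl G ω {x})) = 1 - M by rw [hM]; ring] at gc
  have g2 : Ex p0 (fun ω => ew h (cl G ω {x}) * ind (J ≤ (cl G ω {x}).card)) ≤
      Real.exp (-(h * J)) * tl G p0 x J := by
    unfold tl
    rw [← Ex_mul_left]
    refine Ex_mono hp0 hp1 fun ω => ?_
    by_cases hh : J ≤ (cl G ω {x}).card
    · rw [ind_pos hh, mul_one, mul_one]
      unfold ew
      have : (J : ℝ) ≤ (cl G ω {x}).card := by exact_mod_cast hh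
      gcongr
    · rw [ind_neg hh, mul_zero, mul_zero]
  have tr := transfer_cl hD (p := p0) (q := p0 * (1 - M)) (α := α) (γ := c1 * √h)
    (t := s * √(J : ℝ)) (B := 1) hα h0 h1
    (by rw [abs_le]; constructor <;> nlinarith) g1 x J1
    (fun j => ind (J ≤ j)) (fun _ => ind_nonneg _) (fun _ _ => ind_le_one _) (by positivity)
  have e : ∀ p, Ex p (fun ω => ind (J ≤ min (cl G ω {x}).card J)) = tl G p x J := fun p =>
    Ex_congr fun ω => ind_congr (by omega)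
  rw [e, e] at tr
  change _ * (_ - 1 * (D * ph G p0 x J / _)) ≤ _ at tr
  change tl G (p0 * (1 - M)) x J * _ ≤ _ at gc
  set T0 := tl G p0 x J
  set Tq := tl G (p0 * (1 - M)) x J
  have T00 : 0 < T0 := lt_of_lt_of_le (by positivity) hJ
  have b1 : D * ph G p0 x J / (s * √(J : ℝ)) ^ 2 ≤ T0 / 2 := by
    have := ph_le hC.le hU J
    calc _ ≤ D * (2 * C * √(J : ℝ)) / (s * √(J : ℝ)) ^ 2 := by gcongr
      _ = c0 / √(J : ℝ) / 2 := by rw [mul_pow, s1]; field_simp; ring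
      _ ≤ _ := by gcongr
  have b2 : 2 * (c1 * √h) * (s * √(J : ℝ)) / α + 2 * (D * J) * (c1 * √h) ^ 2 / α ^ 2 ≤
      h * J / 4 := by
    have d1 : √h * √(J : ℝ) ≤ h * J := by
      refine le_of_sq_le_sq ?_ (by positivity)
      rw [mul_pow, r2, j1]; nlinarith
    have d2 : 2 * (c1 * √h) * (s * √(J : ℝ)) / α ≤ h * J / 8 := by
      rw [div_le_div_iff₀ hα (by norm_num)]
      have d3 : 16 * c1 * s ≤ α := by nlinarith
      calc 2 * (c1 * √h) * (s * √(J : ℝ)) * 8 = (√h * √(J : ℝ)) * (16 * c1 * s) := by ring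
        _ ≤ (h * J) * α := by gcongr
    have d4 : 2 * (D * J) * (c1 * √h) ^ 2 / α ^ 2 ≤ h * J / 8 := by
      rw [div_le_div_iff₀ (by positivity) (by norm_num), mul_pow, r2]
      have d5 : 16 * c1 * D ≤ α := by nlinarith
      have d6 : c1 ≤ α := by nlinarith
      calc 2 * (D * J) * (c1 ^ 2 * h) * 8 = (h * J) * ((16 * c1 * D) * c1) := by ring
        _ ≤ (h * J) * (α * α) := by gcongr
        _ = _ := by ring
    linarith
  have b3 : Real.exp (-(h * J / 4)) * (T0 / 2) ≤ Tq := by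
    refine le_trans (mul_le_mul (Real.exp_le_exp.2 (by linarith)) (by linarith) (by positivity)
      (Real.exp_pos _).le) tr
  have Tq0 : 0 ≤ Tq := le_trans (by positivity) b3
  have b4 : Tq ≤ 2 * (Real.exp (-(h * J)) * T0) := by nlinarith
  have b5 : Real.exp (-(h * J / 4)) ≤ 4 * Real.exp (-(h * J)) := by
    refine le_of_mul_le_mul_right ?_ T00
    linarith
  have b6 : Real.exp (-(h * J / 4)) = Real.exp (3 * (h * J) / 4) * Real.exp (-(h * J)) := by
    rw [← Real.exp_add]; congr 1; ring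
  rw [b6] at b5
  have b7 := le_of_mul_le_mul_right b5 (Real.exp_pos _)
  have := Real.add_one_le_exp (3 * (h * J) / 4)
  linarith

lemma stepC {C c1 p0 : ℝ} (hC : 0 < C) (hc1 : 0 < c1) (hp0 : 0 ≤ p0) (hp1 : p0 ≤ 1) {x : V}
    (hU : ∀ j, 1 ≤ j → tl G p0 x j ≤ C / √(j : ℝ)) {k K : ℕ} (hk : 1 ≤ k)
    (hK : (36 * C ^ 2 / c1 ^ 2) ^ 2 ≤ K)
    (hM : c1 * √((c1 / (12 * C)) ^ 2 / k) ≤
      1 - Ex p0 (fun ω => ew ((c1 / (12 * C)) ^ 2 / k) (cl G ω {x}))) :
    c1 ^ 2 / (36 * C) / √(k : ℝ) ≤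
      Ex p0 (fun ω => ind (2 * k ≤ (cl G ω {x}).card ∧ (cl G ω {x}).card ≤ K * k)) := by
  have k0 : (0 : ℝ) < k := by exact_mod_cast hk
  have s0 : 0 < √(k : ℝ) := Real.sqrt_pos.2 k0
  have s1 := Real.sq_sqrt k0.le
  set w := c1 / (12 * C) with hw
  have w0 : 0 < w := by positivity
  rw [Real.sqrt_div (sq_nonneg w), Real.sqrt_sq w0.le] at hM
  set h := w ^ 2 / k with hh
  have h0 : 0 < h := by positivity
  have a1 : 1 - Ex p0 (fun ω => ew h (cl G ω {x})) ≤ h * ph G p0 x (2 * k) +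
      Ex p0 (fun ω => ind (2 * k ≤ (cl G ω {x}).card ∧ (cl G ω {x}).card ≤ K * k)) +
      tl G p0 x (K * k + 1) := by
    unfold tl ph
    rw [← Ex_mul_left, ← Ex_add, ← Ex_add, show 1 - Ex p0 (fun ω => ew h (cl G ω {x})) =
      Ex p0 (fun ω => 1 - ew h (cl G ω {x})) by rw [Ex_sub, Ex_const]]
    refine Ex_mono hp0 hp1 fun ω => ?_
    have i1 := ind_nonneg (2 * k ≤ (cl G ω {x}).card ∧ (cl G ω {x}).card ≤ K * k)
    have i2 := ind_nonneg (K * k + 1 ≤ (cl G ω {x}).card)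
    have i3 := ew_pos h (cl G ω {x})
    have i4 : 0 ≤ h * ((min (cl G ω {x}).card (2 * k) : ℕ) : ℝ) := by positivity
    by_cases c1 : 2 * k ≤ (cl G ω {x}).card
    · by_cases c2 : (cl G ω {x}).card ≤ K * k
      · rw [ind_pos ⟨c1, c2⟩]; linarith
      · rw [ind_pos (show K * k + 1 ≤ _ by omega)]; linarith
    · rw [min_eq_left (by omega)]
      have := Real.add_one_le_exp (-(h * (cl G ω {x}).card))
      unfold ew
      linarith
  have a2 : h * ph G p0 x (2 * k) ≤ c1 * w / 3 / √(k : ℝ) := by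
    have b1 := ph_le hC.le hU (2 * k)
    have b2 : √((2 * k : ℕ) : ℝ) ≤ 2 * √(k : ℝ) := by
      refine le_of_sq_le_sq ?_ (by positivity)
      rw [mul_pow, s1, Real.sq_sqrt (by positivity)]; push_cast; linarith
    calc _ ≤ h * (2 * C * (2 * √(k : ℝ))) := by gcongr; exact b1.trans (by gcongr)
      _ = _ := by
        rw [hh, show (k : ℝ) = √(k : ℝ) ^ 2 from s1.symm, Real.sqrt_sq s0.le, hw]
        field_simp; ring
  have a3 : tl G p0 x (K * k + 1) ≤ c1 * w / 3 / √(k : ℝ) := by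
    refine (hU _ (by omega)).trans ?_
    have b : 36 * C ^ 2 / c1 ^ 2 * √(k : ℝ) ≤ √((K * k + 1 : ℕ) : ℝ) := by
      refine Real.le_sqrt_of_sq_le ?_
      rw [mul_pow, s1]; push_cast
      nlinarith
    calc _ ≤ C / (36 * C ^ 2 / c1 ^ 2 * √(k : ℝ)) := by gcongr
      _ = _ := by rw [hw]; field_simp; ring
  have a4 : c1 ^ 2 / (36 * C) / √(k : ℝ) = c1 * w / 3 / √(k : ℝ) := by rw [hw]; field_simp; ring
  have a5 : c1 * (w / √(k : ℝ)) = 3 * (c1 * w / 3 / √(k : ℝ)) := by field_simp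
  linarith

lemma stepD {D : ℕ} (hD1 : 1 ≤ D) (hD : DegLe G D) {α C c2 p0 p ε : ℝ} (hα : 0 < α) (hC : 0 < C)
    (hc2 : 0 < c2) (h0 : α ≤ p0) (h1 : α ≤ 1 - p0) (hε : 0 < ε) (hε' : ε ≤ α / 4)
    (hp : |p - p0| ≤ ε) {x : V} (hU : ∀ j, 1 ≤ j → tl G p0 x j ≤ C / √(j : ℝ)) {k K : ℕ}
    (hk : 1 ≤ ε ^ 2 * k) (hK : 2 ≤ K)
    (hq : c2 / √(k : ℝ) ≤
      Ex p0 (fun ω => ind (2 * k ≤ (cl G ω {x}).card ∧ (cl G ω {x}).card ≤ K * k))) :
    Real.exp (-((2 * √(8 * D * C * K / c2) / α + 4 * D * K / α ^ 2) * (ε ^ 2 * k))) *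
      (c2 / 2 / √(k : ℝ)) ≤
      Ex p (fun ω => ind (2 * k ≤ (cl G ω {x}).card ∧ (cl G ω {x}).card ≤ K * k)) := by
  have k0 : (0 : ℝ) < k := by
    by_contra h
    nlinarith [sq_nonneg ε]
  have k1 : 1 ≤ k := by exact_mod_cast k0
  have k2 : (1 : ℝ) ≤ k := by exact_mod_cast k1
  have hD' : (1 : ℝ) ≤ D := by exact_mod_cast hD1
  have hK' : (2 : ℝ) ≤ K := by exact_mod_cast hK
  have s0 : 0 < √(k : ℝ) := Real.sqrt_pos.2 k0
  have s1 := Real.sq_sqrt k0.le
  set t0 := √(8 * D * C * K / c2) with ht0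
  have t1 : 0 < t0 := Real.sqrt_pos.2 (by positivity)
  have t2 : t0 ^ 2 = 8 * D * C * K / c2 := Real.sq_sqrt (by positivity)
  have tr := transfer_cl hD (p := p0) (q := p) (α := α) (γ := ε) (t := t0 * √(k : ℝ)) (B := 1)
    hα h0 h1 hp (by linarith) x (m := K * k + 1) (by omega)
    (fun j => ind (2 * k ≤ j ∧ j ≤ K * k)) (fun _ => ind_nonneg _) (fun _ _ => ind_le_one _)
    (by positivity)
  have hKk : 2 * k ≤ K * k := Nat.mul_le_mul_right k hK
  have e : ∀ p, Ex p (fun ω => ind (2 * k ≤ min (cl G ω {x}).card (K * k + 1) ∧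
      min (cl G ω {x}).card (K * k + 1) ≤ K * k)) =
      Ex p (fun ω => ind (2 * k ≤ (cl G ω {x}).card ∧ (cl G ω {x}).card ≤ K * k)) := fun p =>
    Ex_congr fun ω => ind_congr (by omega)
  rw [e, e] at tr
  change _ * (_ - 1 * (D * ph G p0 x (K * k + 1) / _)) ≤ _ at tr
  have b0 : ((K * k + 1 : ℕ) : ℝ) ≤ 2 * K * k := by push_cast; nlinarith
  have b1 : D * ph G p0 x (K * k + 1) / (t0 * √(k : ℝ)) ^ 2 ≤ c2 / 2 / √(k : ℝ) := by
    have c1 := ph_le hC.le hU (K * k + 1)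
    have c3 : √((K * k + 1 : ℕ) : ℝ) ≤ 2 * K * √(k : ℝ) := by
      refine le_of_sq_le_sq ?_ (by positivity)
      rw [mul_pow, s1, Real.sq_sqrt (by positivity)]
      nlinarith [mul_pos (show (0 : ℝ) < K by linarith) k0]
    calc _ ≤ D * (2 * C * (2 * K * √(k : ℝ))) / (t0 * √(k : ℝ)) ^ 2 := by
          gcongr; exact c1.trans (by gcongr)
      _ = _ := by rw [mul_pow, t2]; field_simp; ring
  refine le_trans (mul_le_mul (Real.exp_le_exp.2 (neg_le_neg ?_)) ?_ (by positivity)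
    (Real.exp_pos _).le) tr
  · rw [add_mul]
    refine add_le_add ?_ ?_
    · have c1 : ε * √(k : ℝ) ≤ ε ^ 2 * k := by
        refine le_of_sq_le_sq ?_ (by positivity)
        rw [mul_pow, s1]; nlinarith
      calc 2 * ε * (t0 * √(k : ℝ)) / α = 2 * t0 / α * (ε * √(k : ℝ)) := by ring
        _ ≤ _ := by gcongr
    · calc 2 * (D * ((K * k + 1 : ℕ) : ℝ)) * ε ^ 2 / α ^ 2 ≤
            2 * (D * (2 * K * k)) * ε ^ 2 / α ^ 2 := by gcongr
        _ = _ := by ring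
  · have : c2 / √(k : ℝ) = 2 * (c2 / 2 / √(k : ℝ)) := by ring
    linarith

theorem core (D : ℕ) (α C c0 : ℝ) (hD1 : 1 ≤ D) (hα : 0 < α) (hC : 1 ≤ C) (hc0 : 0 < c0) :
    ∃ A : ℝ, 1 ≤ A ∧ ∀ (V : Type) [Fintype V] [Nonempty V] (G : SimpleGraph V), DegLe G D →
      ∀ p0 : ℝ, α ≤ p0 → α ≤ 1 - p0 →
      (∀ x y (F : ℕ → ℝ), Ex p0 (fun ω => F (cl G ω {x}).card) =
        Ex p0 (fun ω => F (cl G ω {y}).card)) →
      (∀ x j, 1 ≤ j → tl G p0 x j ≤ C / √(j : ℝ)) →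
      ∀ J : ℕ, (∀ x, c0 / √(J : ℝ) ≤ tl G p0 x J) →
      ∀ p ε : ℝ, 0 < ε → ε ≤ α / 4 → |p - p0| ≤ ε → ∀ k m : ℕ, 1 ≤ m → 1 ≤ ε ^ 2 * k →
        A * k ≤ J → Ex p (fun ω => ind (¬ Many G ω m k)) ≤
          m * (k * √(k : ℝ)) * Real.exp (A * (ε ^ 2 * k)) / Fintype.card V := by
  have hD' : (1 : ℝ) ≤ D := by exact_mod_cast hD1
  have hC0 : 0 < C := by linarith
  set c1 := α / (16 * (√(4 * D * C / c0) + D + 1)) with hc1
  have c10 : 0 < c1 := by positivity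
  set κ := (c1 / (12 * C)) ^ 2 with hκ
  have κ0 : 0 < κ := by positivity
  set K : ℕ := ⌈(36 * C ^ 2 / c1 ^ 2) ^ 2⌉₊ + 2 with hK
  have K2 : 2 ≤ K := by omega
  have K2' : (2 : ℝ) ≤ K := by exact_mod_cast K2
  have K3 : (36 * C ^ 2 / c1 ^ 2) ^ 2 ≤ K := by
    rw [hK]; push_cast
    linarith [Nat.le_ceil ((36 * C ^ 2 / c1 ^ 2) ^ 2)]
  set c2 := c1 ^ 2 / (36 * C) with hc2
  have c20 : 0 < c2 := by positivity
  set E2 := 2 * √(8 * D * C * K / c2) / α + 4 * D * K / α ^ 2 with hE2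
  have E20 : 0 ≤ E2 := by positivity
  set A1 := 4 * C * Real.exp (8 * D / α + 16 * D / α ^ 2) with hA1
  have A10 : 0 < A1 := by positivity
  set A3 := 8 * K / c2 * (1 + 12 * D * (K + 1) * A1 ^ 2) with hA3
  have A30 : 0 ≤ A3 := by positivity
  refine ⟨1 + 8 / κ + E2 + A3, by have : 0 ≤ 8 / κ := by positivity
                                  linarith, ?_⟩
  intro V _ _ G hD p0 h0 h1 hT hU J hJ p ε hε hε' hp k m hm hk hA
  have hp' := abs_le.1 hp
  have hp0 : 0 ≤ p := by linarith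
  have hp1 : p ≤ 1 := by linarith
  have k0 : (0 : ℝ) < k := by
    by_contra h
    nlinarith [sq_nonneg ε]
  have k1 : 1 ≤ k := by exact_mod_cast k0
  have k2 : (1 : ℝ) ≤ k := by exact_mod_cast k1
  have s0 : 0 < √(k : ℝ) := Real.sqrt_pos.2 k0
  have κ1 : κ ≤ 1 := by
    have : c1 ≤ 1 := by
      rw [hc1, div_le_one (by positivity)]
      have := Real.sqrt_nonneg (4 * D * C / c0)
      linarith
    rw [hκ]
    refine pow_le_one₀ (by positivity) ?_
    rw [div_le_one (by positivity)]; linarith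
  have q : ∀ x, Real.exp (-(E2 * (ε ^ 2 * k))) * (c2 / 2 / √(k : ℝ)) ≤
      Ex p (fun ω => ind (2 * k ≤ (cl G ω {x}).card ∧ (cl G ω {x}).card ≤ K * k)) := by
    intro x
    refine stepD hD1 hD hα hC0 c20 h0 h1 hε hε' hp (hU x) hk K2 ?_
    refine stepC hC0 c10 (by linarith) (by linarith) (hU x) k1 K3 ?_
    refine stepB hD1 hD hα hC0 hc0 h0 h1 hT (hU x) (hJ x) (by positivity) ?_ ?_
    · rw [div_le_one k0]; linarith
    · rw [div_mul_eq_mul_div, le_div_iff₀ k0]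
      have a1 : 8 / κ * k ≤ J := le_trans (by gcongr; linarith) hA
      have a2 := mul_le_mul_of_nonneg_left a1 κ0.le
      rwa [← mul_assoc, mul_div_cancel₀ _ κ0.ne'] at a2
  obtain ⟨g, hg⟩ := exists_bump k (K * k)
  have V0 : (0 : ℝ) < Fintype.card V := by exact_mod_cast Fintype.card_pos
  have hZ : Fintype.card V * (Real.exp (-(E2 * (ε ^ 2 * k))) * (c2 / 2 / √(k : ℝ)) / K) ≤
      Ex p (ZZ g G) := by
    unfold ZZ
    rw [Ex_sum, ← nsmul_eq_mul, ← Finset.card_univ, ← Finset.sum_const]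
    refine Finset.sum_le_sum fun x _ => ?_
    refine le_trans (div_le_div_of_nonneg_right (q x) (by linarith)) ?_
    rw [div_eq_mul_inv, ← Ex_mul_right]
    refine Ex_mono hp0 hp1 fun ω => ?_
    by_cases h : 2 * k ≤ (cl G ω {x}).card ∧ (cl G ω {x}).card ≤ K * k
    · rw [ind_pos h, one_mul, term, hg.mid _ h.1 h.2, inv_eq_one_div,
        div_le_div_iff₀ (by linarith) (by exact_mod_cast one_le_card_cl), one_mul, mul_comm]
      exact_mod_cast h.2
    · rw [ind_neg h, zero_mul]; exact term_nonneg hg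
  have sA := fun x => stepA hD1 hD hα hC0.le h0 h1 hε hε' hp (hU x) hk
  refine (not_many_le hg hm hD hp0 hp1 (fun x => (sA x).1) (fun x => (sA x).2) (by positivity)
    (by positivity) hZ).trans ?_
  rw [← hA1]
  set u := ε ^ 2 * k with hu
  have e1 : 4 * m * (k + D * (((K * k : ℕ) : ℝ) + k) * (4 * (3 * A1 * (k * ε) * (A1 * ε)))) /
      (Fintype.card V * (Real.exp (-(E2 * u)) * (c2 / 2 / √(k : ℝ)) / K)) =
      m * (k * √(k : ℝ)) * (8 * K / c2 * (1 + 12 * D * (K + 1) * A1 ^ 2 * u) * Real.exp (E2 * u)) /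
        Fintype.card V := by
    rw [Real.exp_neg, hu]
    push_cast
    field_simp
    ring
  rw [e1]
  gcongr
  have e2 : 8 * K / c2 * (1 + 12 * D * (K + 1) * A1 ^ 2 * u) ≤ A3 * u := by
    rw [hA3, mul_assoc (8 * K / c2)]
    gcongr
    linarith
  have e3 : A3 * u ≤ Real.exp (A3 * u) := by linarith [Real.add_one_le_exp (A3 * u)]
  calc _ ≤ Real.exp (A3 * u) * Real.exp (E2 * u) := by gcongr; exact e2.trans e3
    _ = Real.exp ((E2 + A3) * u) := by rw [← Real.exp_add]; congr 1; ring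
    _ ≤ _ := by
      have : 0 ≤ 8 / κ := by positivity
      gcongr; linarith

end Pool.Agent.Lib.MP_81a99a_pr
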