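import Pool.Agent.Lib.MP_81a99a_pr.Torus

open Finset Classical MeasureTheory ProbabilityTheory Filter Topology

namespace Pool.Agent.Lib.MP_81a99a_pr

theorem main (d : ℕ) (hd : 0 < d) (h : MeanField d) :
    ∃ δ : ℝ, 0 < δ ∧ ∀ m : ℕ, 1 ≤ m → ∀ ε : ℕ → ℝ, (∀ n, 0 < ε n) → Tendsto ε atTop (𝓝 0) →
      Tendsto (fun n : ℕ => ε n * ((n : ℝ) ^ d) ^ (1 / 3 : ℝ)) atTop atTop →
      Tendsto (fun n : ℕ => (setBernoulli (torus d n).edgeSet
          (Set.projIcc 0 1 zero_le_one ((pc d : ℝ) * (1 + ε n)))).real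
        {ω | δ * ((ε n)⁻¹ ^ 2 * Real.log (ε n ^ 3 * (n : ℝ) ^ d)) ≤ kthLargest m ω})
        atTop (𝓝 1) := by
  have p1 := pc_lt_one hd h
  obtain ⟨⟨C, hC⟩, a, ha, hev⟩ := h
  set v : ℕ → ℝ := fun n => ((n : ℝ) ^ d) ^ (1 / 3 : ℝ) with hv
  have v3 : ∀ n, v n ^ 3 = (n : ℝ) ^ d := fun n => by
    rw [hv]; beta_reduce
    rw [← Real.rpow_natCast, ← Real.rpow_mul (by positivity)]; norm_num
  have v2 : ∀ n : ℕ, ((n : ℝ) ^ d) ^ (2 / 3 : ℝ) = v n ^ 2 := fun n => by
    rw [hv]; beta_reduce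
    rw [← Real.rpow_natCast _ 2, ← Real.rpow_mul (by positivity)]; norm_num
  have v0 : ∀ n, 0 < n → 0 < v n := fun n hn => by rw [hv]; positivity
  have vt : Tendsto v atTop atTop :=
    (tendsto_rpow_atTop (by norm_num)).comp
      ((tendsto_pow_atTop hd.ne').comp tendsto_natCast_atTop_atTop)
  have hcard : ∀ n [NeZero n], (Fintype.card (Fin d → ZMod n) : ℝ) = (n : ℝ) ^ d := fun n _ => by
    simp [ZMod.card]
  have low : ∀ᶠ n : ℕ in atTop, ∀ [NeZero n], ∀ x,
      a ^ 2 * √a / √(⌈a * v n ^ 2⌉₊ : ℝ) ≤ tl (torus d n) (pc d) x ⌈a * v n ^ 2⌉₊ := by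
    filter_upwards [hev] with n hn _ x
    rw [v2] at hn
    exact tail_lower ha (v0 n (NeZero.pos n)) (by rw [v3, hcard]) hn x
  have p0 : 0 < (pc d : ℝ) := by
    refine lt_of_le_of_ne (pc d).2.1 fun h0 => ?_
    obtain ⟨n, h1, h2, h3⟩ := (low.and ((vt.eventually_ge_atTop (max 1 (2 / a))).and
      (eventually_gt_atTop 0))).exists
    have : NeZero n := ⟨h3.ne'⟩
    have h4 := h1 0
    have h5 : (2 : ℝ) ≤ a * v n ^ 2 := by
      have b1 := le_trans (le_max_left _ _) h2
      have b2 := le_trans (le_max_right _ _) h2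
      rw [div_le_iff₀ ha] at b2
      nlinarith
    have h6 : 2 ≤ ⌈a * v n ^ 2⌉₊ := by exact_mod_cast h5.trans (Nat.le_ceil _)
    rw [← h0, tl_zero _ _ h6] at h4
    have : 0 < a ^ 2 * √a / √(⌈a * v n ^ 2⌉₊ : ℝ) := by positivity
    linarith
  set α := min (pc d : ℝ) (1 - pc d) with hα
  have α0 : 0 < α := lt_min p0 (by linarith)
  obtain ⟨A, A1, hA⟩ := core (2 * d) α (max C 1) (a ^ 2 * √a) (by omega) α0 (le_max_right _ _)
    (by positivity)
  refine ⟨1 / (6 * A), by positivity, fun m hm ε ε0 εt lt => ?_⟩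
  have lim : Tendsto (fun n : ℕ => 1 - m / √(ε n * v n)) atTop (𝓝 1) := by
    have := (Real.tendsto_sqrt_atTop.comp lt).const_div_atTop (m : ℝ)
    have h2 := this.const_sub 1
    rw [sub_zero] at h2
    exact h2
  refine tendsto_of_tendsto_of_tendsto_of_le_of_le' lim tendsto_const_nhds ?_
    (Eventually.of_forall fun n => measureReal_le_one)
  filter_upwards [low, eventually_gt_atTop 0, εt.eventually (ge_mem_nhds (show 0 < α / 4 by positivity)),
    lt.eventually_ge_atTop (max (Real.exp (2 * A)) (1 / a))] with n hlow hn hε hl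
  have : NeZero n := ⟨hn.ne'⟩
  change _ ≤ ε n * v n at hl
  have e0 := ε0 n
  have w0 := v0 n hn
  have w3 := v3 n
  generalize ε n = e at *
  generalize v n = w at *
  set l := e * w with hldef
  have l0 : 0 < l := by positivity
  have l1 : 2 * A ≤ Real.log l := by
    rw [Real.le_log_iff_exp_le l0]; exact le_trans (le_max_left _ _) hl
  have l2 : 1 ≤ a * l := by
    have := le_trans (le_max_right _ _) hl
    rw [div_le_iff₀ ha] at this; linarith
  have l3 : Real.log l ≤ l := by linarith [Real.log_le_sub_one_of_pos l0]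
  have α1 : α ≤ pc d := min_le_left _ _
  have α2 : α ≤ 1 - pc d := min_le_right _ _
  have hp : ((Set.projIcc 0 1 zero_le_one ((pc d : ℝ) * (1 + e)) : unitInterval) : ℝ) =
      pc d * (1 + e) := by
    rw [Set.projIcc_of_mem _ ⟨by positivity, by nlinarith⟩]
  have elog : 1 / (6 * A) * (e⁻¹ ^ 2 * Real.log (e ^ 3 * (n : ℝ) ^ d)) =
      Real.log l / (2 * A) / e ^ 2 := by
    rw [← w3, ← mul_pow, ← hldef, Real.log_pow]; field_simp; push_cast; ring
  rw [elog, real_eq_Ex' _ _ fun ω => Real.log l / (2 * A) / e ^ 2 ≤ kthLargest m ω, hp]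
  set s := Real.log l / (2 * A) with hs
  have s1 : 1 ≤ s := by rw [hs, le_div_iff₀ (by positivity)]; linarith
  have s2 : 2 * A * s = Real.log l := by rw [hs]; field_simp
  set k := ⌈s / e ^ 2⌉₊ with hk
  have k1 : s ≤ e ^ 2 * k := by
    have := Nat.le_ceil (s / e ^ 2)
    rw [div_le_iff₀ (by positivity)] at this; linarith
  have k2 : e ^ 2 * k ≤ 2 * s := by
    have := (Nat.ceil_lt_add_one (show 0 ≤ s / e ^ 2 by positivity)).le
    have h2 := mul_le_mul_of_nonneg_left this (sq_nonneg e)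
    rw [mul_add, mul_div_cancel₀ _ (by positivity)] at h2
    nlinarith
  have key := hA (Fin d → ZMod n) (torus d n) torus_deg (pc d) α1 α2 (torus_trans _)
    (fun x j hj => by
      rw [tl, torus_trans _ x 0 fun i => ind (j ≤ i)]
      refine (torus_le_lattice _ _).trans ((hC j hj).trans ?_)
      gcongr; exact le_max_left _ _)
    _ hlow (pc d * (1 + e)) e e0 hε (by rw [abs_le]; constructor <;> nlinarith) k m hm
    (by linarith) (by
      refine le_trans ?_ (Nat.le_ceil _)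
      refine le_of_mul_le_mul_left ?_ (show 0 < e ^ 2 by positivity)
      have : e ^ 2 * (a * w ^ 2) = a * l * l := by rw [hldef]; ring
      rw [this]
      nlinarith)
  have q0 : 0 ≤ (pc d : ℝ) * (1 + e) := by positivity
  have q1 : (pc d : ℝ) * (1 + e) ≤ 1 := by nlinarith
  have fin : m * (k * √(k : ℝ)) * Real.exp (A * (e ^ 2 * k)) / Fintype.card (Fin d → ZMod n) ≤
      m / √l := by
    rw [hcard, ← w3]
    have b1 : Real.exp (A * (e ^ 2 * k)) ≤ l := by
      rw [← Real.le_log_iff_exp_le l0]; nlinarith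
    have b2 : e ^ 2 * k ≤ l := by nlinarith
    have sl : 0 < √l := Real.sqrt_pos.2 l0
    have sl2 := Real.sq_sqrt l0.le
    have b3 : e * √(k : ℝ) ≤ √l := by
      refine Real.le_sqrt_of_sq_le ?_
      rw [mul_pow, Real.sq_sqrt (by positivity)]; exact b2
    rw [div_le_div_iff₀ (by positivity) sl]
    refine le_of_mul_le_mul_left ?_ (show 0 < e ^ 3 by positivity)
    calc e ^ 3 * (m * (k * √(k : ℝ)) * Real.exp (A * (e ^ 2 * k)) * √l)
        = m * ((e ^ 2 * k) * (e * √(k : ℝ)) * Real.exp (A * (e ^ 2 * k)) * √l) := by ring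
      _ ≤ m * (l * √l * l * √l) := by gcongr
      _ = m * (l * l * √l ^ 2) := by ring
      _ = e ^ 3 * (m * w ^ 3) := by rw [sl2, hldef]; ring
  have := Ex_mono q0 q1 (f := fun η => 1 - ind (¬ Many (torus d n) η m k))
    (g := fun η => ind (s / e ^ 2 ≤ kthLargest m (η ∩ (torus d n).edgeSet))) fun η => by
      rw [ind_not, sub_sub_cancel]
      refine ind_mono fun hM => (Nat.le_ceil _).trans ?_
      exact_mod_cast le_kth_of_many hm hM
  rw [Ex_sub, Ex_const] at this
  linarith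

end Pool.Agent.Lib.MP_81a99a_pr
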