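import Pool.Agent.Lib.MP_81a99a_pr.Core
import Pool.Agent.Lib.MP_81a99a_pr.Defs

/-! Transfer between the product measure and the finite model; the torus. -/

open Finset Classical MeasureTheory ProbabilityTheory Filter

set_option linter.unusedSectionVars false

namespace Pool.Agent.Lib.MP_81a99a_pr

lemma real_cyl {ι κ : Type} [Fintype κ] {j : κ → ι} (hj : Function.Injective j) (u : Set ι)
    (p : unitInterval) (s : Set κ) :
    (setBernoulli u p).real {ω | j ⁻¹' ω = s} = Ex p (fun η => ind (η ∩ j ⁻¹' u = s)) := by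
  have e1 : ∀ η : Set κ, ind (η ∩ j ⁻¹' u = s) = ∏ e, ind ((e ∈ η ∧ j e ∈ u) ↔ e ∈ s) := by
    intro η
    by_cases h : η ∩ j ⁻¹' u = s
    · rw [ind_pos h, Finset.prod_eq_one]
      intro e _
      exact ind_pos (by rw [← h]; rfl)
    · rw [ind_neg h]
      rw [Set.ext_iff, not_forall] at h
      obtain ⟨e, he⟩ := h
      exact (Finset.prod_eq_zero (Finset.mem_univ e) (ind_neg he)).symm
  rw [Ex_congr e1, Ex_prod p (fun e P => ind ((P ∧ j e ∈ u) ↔ e ∈ s)), measureReal_def,
    setBernoulli_apply']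
  have e2 : (fun q : ι → Prop => {i | q i}) ⁻¹' {ω | j ⁻¹' ω = s} =
      Set.pi (Finset.univ.image j : Finset ι) fun i => {P | P ↔ i ∈ j '' s} := by
    ext q
    simp only [Set.mem_preimage, Set.mem_ofPred_eq, Set.ext_iff, Set.mem_pi, Finset.coe_image,
      Finset.coe_univ, Set.image_univ, Set.forall_mem_range, hj.mem_set_image]
  rw [e2, Measure.infinitePi_pi _ (fun _ _ => MeasurableSet.of_discrete),
    Finset.prod_image (fun a _ b _ h => hj h), ENNReal.toReal_prod]
  refine Finset.prod_congr rfl fun e _ => ?_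
  simp only [hj.mem_set_image, Measure.add_apply, Measure.smul_apply,
    Measure.dirac_apply' _ MeasurableSet.of_discrete, Set.indicator, Set.mem_ofPred_eq, ind]
  by_cases h1 : j e ∈ u <;> by_cases h2 : e ∈ s <;>
    simp [h1, h2, ENNReal.toReal_add]

lemma real_eq_Ex {ι κ : Type} [Fintype κ] {j : κ → ι} (hj : Function.Injective j) (u : Set ι)
    (p : unitInterval) (B : Set κ → Prop) :
    (setBernoulli u p).real {ω | B (j ⁻¹' ω)} = Ex p (fun η => ind (B (η ∩ j ⁻¹' u))) := by
  have hm : Measurable fun ω : Set ι => j ⁻¹' ω :=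
    measurable_set_iff.2 fun a => measurable_set_mem (j a)
  have e1 : {ω : Set ι | B (j ⁻¹' ω)} =
      ⋃ s ∈ (Finset.univ.filter B : Finset (Set κ)), {ω | j ⁻¹' ω = s} := by
    ext ω; simp
  rw [e1, measureReal_biUnion_finset]
  · simp only [real_cyl hj]
    rw [← Ex_sum]
    refine Ex_congr fun η => ?_
    by_cases h : B (η ∩ j ⁻¹' u)
    · rw [ind_pos h, Finset.sum_eq_single (η ∩ j ⁻¹' u), ind_pos rfl]
      · intro s _ hs; exact ind_neg (Ne.symm hs)
      · intro hs; exact absurd (by simpa using h) hs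
    · rw [ind_neg h, Finset.sum_eq_zero]
      intro s hs
      refine ind_neg fun h2 => h ?_
      rw [h2]; simpa using hs
  · intro s _ t _ hst
    rw [Function.onFun, Set.disjoint_left]
    intro ω h1 h2
    exact hst (h1.symm.trans h2)
  · intro s _
    exact hm (measurableSet_singleton s)

variable {V : Type} [Fintype V]

lemma cluster_inter (G : SimpleGraph V) (η : Set (Sym2 V)) (x : V) :
    cluster (η ∩ G.edgeSet) x = cl G η {x} := by
  have : SimpleGraph.fromEdgeSet (η ∩ G.edgeSet) = op G η := by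
    rw [SimpleGraph.fromEdgeSet_inter, SimpleGraph.fromEdgeSet_edgeSet, inf_comm, op]
  ext y
  simp only [cluster, this, Set.mem_ofPred_eq, Finset.mem_coe, mem_cl_single]

lemma real_eq_Ex' (G : SimpleGraph V) (p : unitInterval) (B : Set (Sym2 V) → Prop) :
    (setBernoulli G.edgeSet p).real {ω | B ω} = Ex p (fun η => ind (B (η ∩ G.edgeSet))) :=
  real_eq_Ex (j := id) Function.injective_id G.edgeSet p B

lemma le_kth_of_many {G : SimpleGraph V} {η : Set (Sym2 V)} {m k : ℕ} (hm : 1 ≤ m)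
    (h : Many G η m k) : k ≤ kthLargest m (η ∩ G.edgeSet) := by
  refine le_csSup ⟨Fintype.card V, ?_⟩ ?_
  · rintro j ⟨S, h1, _, h3⟩
    obtain ⟨x, hx⟩ := Finset.card_pos.1 (show 0 < S.card by omega)
    refine (h3 x hx).trans ?_
    rw [cluster_inter, Set.ncard_coe_finset]
    exact Finset.card_le_univ _
  · obtain ⟨S, h1, h2, h3⟩ := h
    refine ⟨S, h1, fun x hx y hy hxy => ?_, fun x hx => ?_⟩
    · rw [cluster_inter]; exact h2 x hx y hy hxy
    · rw [cluster_inter, Set.ncard_coe_finset]; exact h3 x hx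

lemma exists_of_le_kth {G : SimpleGraph V} {η : Set (Sym2 V)} {k : ℕ} (hk : 1 ≤ k)
    (h : k ≤ kthLargest 1 (η ∩ G.edgeSet)) : ∃ x, k ≤ (cl G η {x}).card := by
  by_contra hcon
  push Not at hcon
  have : kthLargest 1 (η ∩ G.edgeSet) ≤ k - 1 := by
    refine csSup_le' ?_
    rintro j ⟨S, h1, _, h3⟩
    obtain ⟨x, hx⟩ := Finset.card_pos.1 (show 0 < S.card by omega)
    have := h3 x hx
    rw [cluster_inter, Set.ncard_coe_finset] at this
    have := hcon x
    omega
  omega

lemma Ex_iso {G : SimpleGraph V} (φ : G ≃g G) (p : ℝ) (x : V) (F : ℕ → ℝ) :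
    Ex p (fun ω => F (cl G ω {x}).card) = Ex p (fun ω => F (cl G ω {φ x}).card) := by
  let σ : Sym2 V ≃ Sym2 V := ⟨Sym2.map φ, Sym2.map φ.symm,
    fun e => by rw [Sym2.map_map]; simp, fun e => by rw [Sym2.map_map]; simp⟩
  unfold Ex
  symm
  refine Fintype.sum_equiv (Equiv.Set.congr σ).symm _ _ fun ω => ?_
  have e : (Equiv.Set.congr σ).symm ω = σ ⁻¹' ω := by
    ext e; simp [Equiv.Set.congr, Equiv.image_symm_eq_preimage]
  rw [e]
  congr 1
  · unfold wt
    exact (Fintype.prod_equiv σ _ _ fun _ => rfl).symm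
  · refine congrArg F ?_
    let ψ : op G (σ ⁻¹' ω) ≃g op G ω := ⟨φ.toEquiv, fun {a b} => by
      rw [op_adj, op_adj]
      exact and_congr φ.map_rel_iff Iff.rfl⟩
    symm
    refine Finset.card_equiv φ.toEquiv fun z => ?_
    rw [mem_cl_single, mem_cl_single]
    exact (ψ.reachable_iff (u := x) (v := z)).symm

variable {d n : ℕ}

lemma torus_adj {x y : Fin d → ZMod n} : (torus d n).Adj x y ↔
    x ≠ y ∧ ((∃ i, y = x + Pi.single i 1) ∨ ∃ i, x = y + Pi.single i 1) :=
  SimpleGraph.fromRel_adj _ _ _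

lemma lattice_adj {x y : Fin d → ℤ} : (lattice d).Adj x y ↔
    x ≠ y ∧ ((∃ i, y = x + Pi.single i 1) ∨ ∃ i, x = y + Pi.single i 1) :=
  SimpleGraph.fromRel_adj _ _ _

lemma torus_trans [NeZero n] (p : ℝ) (x y : Fin d → ZMod n) (F : ℕ → ℝ) :
    Ex p (fun ω => F (cl (torus d n) ω {x}).card) =
      Ex p (fun ω => F (cl (torus d n) ω {y}).card) := by
  let φ : torus d n ≃g torus d n := ⟨Equiv.addLeft (y - x), fun {a b} => by
    simp only [torus_adj, Equiv.coe_addLeft, add_assoc, add_right_inj, ne_eq]⟩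
  have := Ex_iso φ p x F
  rwa [show φ x = y from sub_add_cancel y x] at this

lemma torus_deg [NeZero n] : DegLe (torus d n) (2 * d) := by
  intro v
  have : (Finset.univ.filter fun y => (torus d n).Adj v y) ⊆
      (Finset.univ.image fun i => v + Pi.single i 1) ∪
        (Finset.univ.image fun i => v - Pi.single i 1) := by
    intro y hy
    rw [Finset.mem_filter, torus_adj] at hy
    simp only [Finset.mem_union, Finset.mem_image, Finset.mem_univ, true_and]
    rcases hy.2.2 with ⟨i, h⟩ | ⟨i, h⟩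
    · exact Or.inl ⟨i, h.symm⟩
    · exact Or.inr ⟨i, by rw [h]; simp⟩
  refine (Finset.card_le_card this).trans ((Finset.card_union_le _ _).trans ?_)
  have a := Finset.card_image_le (s := Finset.univ) (f := fun i : Fin d => v + Pi.single i 1)
  have b := Finset.card_image_le (s := Finset.univ) (f := fun i : Fin d => v - Pi.single i 1)
  simp only [Finset.card_univ, Fintype.card_fin] at a b
  omega

lemma torus_le_lattice [NeZero n] (p : unitInterval) (k : ℕ) :
    tl (torus d n) p 0 k ≤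
      (setBernoulli (lattice d).edgeSet p).real {ω | (k : ℕ∞) ≤ (cluster ω 0).encard} := by
  set R : ℕ := Fintype.card (Fin d → ZMod n) + 1 with hR
  let W := Fin d → Set.Icc (-(R : ℤ)) R
  let ι : W → Fin d → ℤ := fun a i => (a i : ℤ)
  have hι : Function.Injective ι := fun a b h => funext fun i => Subtype.ext (congrFun h i)
  let H : SimpleGraph W := (lattice d).comap ι
  let π : W → Fin d → ZMod n := fun a i => ((a i : ℤ) : ZMod n)
  let o : W := fun _ => ⟨0, by simp⟩
  let ρ : W → ℕ := fun a => ∑ i, (a i : ℤ).natAbs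
  have mk : ∀ (a : W) (i : Fin d) (t : ℤ), ρ a ≤ Fintype.card (Fin d → ZMod n) → t.natAbs = 1 →
      ∃ b : W, ι b = ι a + Pi.single i t ∧ π b = π a + Pi.single i (t : ZMod n) ∧
        ρ b ≤ ρ a + 1 := by
    intro a i t ha ht
    have h1 : ∀ l, (a l : ℤ).natAbs ≤ ρ a := fun l =>
      Finset.single_le_sum (f := fun i => (a i : ℤ).natAbs) (fun _ _ => Nat.zero_le _)
        (Finset.mem_univ l)
    have h2 : ∀ l, ((Pi.single i t : Fin d → ℤ) l).natAbs = if l = i then 1 else 0 := by
      intro l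
      by_cases h : l = i
      · subst h; simp [ht]
      · simp [h]
    refine ⟨fun l => ⟨a l + (Pi.single i t : Fin d → ℤ) l, ?_⟩, rfl, ?_, ?_⟩
    · have := h1 l
      have h3 := h2 l
      constructor <;> split_ifs at h3 <;> omega
    · funext l
      by_cases h : l = i
      · subst h; simp [π]
      · simp [π, h]
    · calc ∑ l, ((a l : ℤ) + (Pi.single i t : Fin d → ℤ) l).natAbs
          ≤ ∑ l, ((a l : ℤ).natAbs + if l = i then 1 else 0) :=
            Finset.sum_le_sum fun l _ => by rw [← h2]; exact Int.natAbs_add_le _ _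
        _ = ρ a + 1 := by rw [Finset.sum_add_distrib]; simp [ρ]
  have cc := cover_compare (G := torus d n) (H := H) π ρ (by
    intro a y ha hy
    rw [torus_adj] at hy
    rcases hy.2 with ⟨i, h⟩ | ⟨i, h⟩
    · obtain ⟨b, h1, h2, h3⟩ := mk a i 1 ha rfl
      have h5 : π b = y := by rw [h2, h]; simp
      refine ⟨b, lattice_adj.2 ⟨fun h4 => hy.1 ?_, Or.inl ⟨i, h1⟩⟩, h5, h3⟩
      rw [← h5, hι h4]
    · obtain ⟨b, h1, h2, h3⟩ := mk a i (-1) ha rfl
      have h5 : π b = y := by rw [h2, h]; simp [Pi.single_neg]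
      refine ⟨b, lattice_adj.2 ⟨fun h4 => hy.1 ?_, Or.inr ⟨i, ?_⟩⟩, h5, h3⟩
      · rw [← h5, hι h4]
      · rw [h1]; simp [Pi.single_neg])
    p.2.1 p.2.2 k _ (torus d n) rfl le_rfl H {o} (fun _ _ h _ => h) (by simp) (by simp [ρ, o])
  simp only [Finset.image_singleton, show π o = 0 by funext i; simp [π, o]] at cc
  refine le_trans cc ?_
  have e := real_eq_Ex (j := Sym2.map ι) (Sym2.map.injective hι) (lattice d).edgeSet p
    (fun η => k ≤ (cluster η o).ncard)
  have e2 : Sym2.map ι ⁻¹' (lattice d).edgeSet = H.edgeSet := by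
    ext e
    induction e using Sym2.ind with
    | h a b => rfl
  simp only [e2, cluster_inter, Set.ncard_coe_finset] at e
  rw [← e]
  refine measureReal_mono fun ω hω => ?_
  have hω' : k ≤ (cluster (Sym2.map ι ⁻¹' ω) o).ncard := hω
  have hs : ι '' cluster (Sym2.map ι ⁻¹' ω) o ⊆ cluster ω 0 := by
    rintro _ ⟨z, hz, rfl⟩
    let f : SimpleGraph.fromEdgeSet (Sym2.map ι ⁻¹' ω) →g SimpleGraph.fromEdgeSet ω :=
      ⟨ι, fun {a b} h => by
        rw [SimpleGraph.fromEdgeSet_adj] at h ⊢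
        exact ⟨h.1, fun h2 => h.2 (hι h2)⟩⟩
    exact SimpleGraph.Reachable.map f hz
  refine le_trans ?_ (Set.encard_le_encard hs)
  rw [hι.encard_image, ← (Set.toFinite _).cast_ncard_eq]
  exact_mod_cast hω'

lemma pc_lt_one (hd : 0 < d) (h : MeanField d) : (pc d : ℝ) < 1 := by
  obtain ⟨⟨C, hC⟩, -⟩ := h
  refine lt_of_le_of_ne (pc d).2.2 fun h1 => ?_
  have h2 : pc d = 1 := Subtype.ext h1
  have hinf : (cluster (lattice d).edgeSet 0).Infinite := by
    refine Set.infinite_of_injective_forall_mem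
      (f := fun t : ℕ => (Pi.single ⟨0, hd⟩ (t : ℤ) : Fin d → ℤ)) ?_ ?_
    · intro a b hab
      simpa using congrFun hab ⟨0, hd⟩
    · intro t
      simp only [cluster, SimpleGraph.fromEdgeSet_edgeSet, Set.mem_ofPred_eq]
      induction t with
      | zero => simp
      | succ t ih =>
        refine ih.trans (SimpleGraph.Adj.reachable (lattice_adj.2 ⟨fun h => ?_, Or.inl
          ⟨⟨0, hd⟩, ?_⟩⟩))
        · simpa using congrFun h ⟨0, hd⟩
        · rw [← Pi.single_add]; simp
  obtain ⟨k, hk⟩ := exists_nat_gt (C ^ 2)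
  have := hC (k + 1) (by omega)
  rw [h2, setBernoulli_one, measureReal_def, Measure.dirac_apply_of_mem
    (by simp [hinf.encard_eq]), ENNReal.toReal_one,
    le_div_iff₀ (Real.sqrt_pos.2 (by positivity)), one_mul] at this
  have h3 := pow_le_pow_left₀ (Real.sqrt_nonneg _) this 2
  rw [Real.sq_sqrt (by positivity)] at h3
  push_cast at h3
  linarith

lemma tl_zero (G : SimpleGraph V) (x : V) {J : ℕ} (hJ : 2 ≤ J) : tl G 0 x J = 0 := by
  unfold tl Ex
  refine Finset.sum_eq_zero fun ω _ => ?_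
  rcases Set.eq_empty_or_nonempty ω with rfl | ⟨e, he⟩
  · have : cl G ∅ {x} ⊆ {x} := cl_subset subset_rfl fun _ _ _ _ h => h.elim
    have := Finset.card_le_card this
    rw [Finset.card_singleton] at this
    beta_reduce
    rw [ind_neg (by omega), mul_zero]
  · rw [wt, Finset.prod_eq_zero (Finset.mem_univ e) (by simp [he]), zero_mul]

lemma tail_lower [NeZero n] {p : unitInterval} {a v : ℝ} (ha : 0 < a) (hv : 0 < v)
    (hV : v ^ 3 = Fintype.card (Fin d → ZMod n))
    (h : a ≤ (setBernoulli (torus d n).edgeSet p).real {ω | a * v ^ 2 ≤ kthLargest 1 ω})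
    (x : Fin d → ZMod n) :
    a ^ 2 * √a / √(⌈a * v ^ 2⌉₊ : ℝ) ≤ tl (torus d n) p x ⌈a * v ^ 2⌉₊ := by
  set J := ⌈a * v ^ 2⌉₊ with hJ
  have J1 : a * v ^ 2 ≤ J := Nat.le_ceil _
  have J0 : (0 : ℝ) < J := lt_of_lt_of_le (by positivity) J1
  have J2 : 1 ≤ J := by exact_mod_cast J0
  rw [real_eq_Ex' _ p fun ω => a * v ^ 2 ≤ kthLargest 1 ω] at h
  have a1 : J * a ≤ v ^ 3 * tl (torus d n) p x J := by
    have : ∑ y, tl (torus d n) p y J = v ^ 3 * tl (torus d n) p x J := by
      have : ∀ y, tl (torus d n) p y J = tl (torus d n) p x J := fun y =>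
        torus_trans p y x fun j => ind (J ≤ j)
      simp only [this]
      rw [Finset.sum_const, nsmul_eq_mul, Finset.card_univ, hV]
    rw [← this]
    refine le_trans (mul_le_mul_of_nonneg_left h J0.le) ?_
    unfold tl
    rw [← Ex_mul_left, ← Ex_sum]
    refine Ex_mono p.2.1 p.2.2 fun η => ?_
    by_cases h2 : a * v ^ 2 ≤ kthLargest 1 (η ∩ (torus d n).edgeSet)
    · obtain ⟨z, hz⟩ := exists_of_le_kth J2 (Nat.ceil_le.2 h2)
      rw [ind_pos h2, mul_one]
      refine le_trans ?_ (Finset.sum_le_sum_of_subset_of_nonneg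
        (Finset.subset_univ (cl (torus d n) η {z})) fun _ _ _ => ind_nonneg _)
      rw [Finset.sum_congr rfl (g := fun _ => 1) fun y hy => ind_pos (by
        rw [cl_eq_of_mem hy]; exact hz)]
      simpa using hz
    · rw [ind_neg h2, mul_zero]
      exact Finset.sum_nonneg fun _ _ => ind_nonneg _
  have s0 : 0 < √(J : ℝ) := Real.sqrt_pos.2 J0
  have s1 : √a * v ≤ √(J : ℝ) := by
    refine Real.le_sqrt_of_sq_le ?_
    rw [mul_pow, Real.sq_sqrt ha.le]; exact J1
  have sa : 0 < √a := Real.sqrt_pos.2 ha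
  refine le_of_mul_le_mul_left (le_trans ?_ a1) (show 0 < v ^ 3 by positivity)
  rw [← mul_div_assoc, div_le_iff₀ s0]
  calc v ^ 3 * (a ^ 2 * √a) = (a * v ^ 2) * a * (√a * v) := by ring
    _ ≤ J * a * √(J : ℝ) := by gcongr

end Pool.Agent.Lib.MP_81a99a_pr
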